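import Mathlib
import Pool.Agent.H13R3.WB.Lin
import Pool.Agent.H931R3.Bal10

set_option autoImplicit false
set_option linter.unusedSectionVars false
set_option linter.unusedVariables false

/-!
Windows: a finite set of elements of a poset, inequalities between the numbers of linear extensions
with a given order of the window, and certificates for lower bounds of the balance constant.
-/

namespace Pool.Agent.Q109.SO

open Finset Pool.Agent.H13R3.WB Pool.Agent.H931R3.Bal

/-- One step of a certificate: `y` times the inequality `N(s) ≤ N(t)`, where the order `t` of the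
window arises from `s` by exchanging the elements `u` and `v`. -/
structure Fl where
  s : List ℕ
  t : List ℕ
  u : ℕ
  v : ℕ
  y : ℕ

structure Cert where
  k : ℕ
  cmp : List (ℕ × ℕ)
  free : List (ℕ × ℕ)
  comp : List (ℕ × ℕ × List ℕ)
  lam : List (ℕ × ℕ × ℕ)
  flow : List Fl

/-- The entry. -/
def gd (s : List ℕ) (i : ℕ) : ℕ := s.getD i 0

/-- Exchange of two entries. -/
def swl (k : ℕ) (s : List ℕ) (u v : ℕ) : List ℕ :=
  (List.range k).map fun i => gd s (if i = u then v else if i = v then u else i)

def okFlow (C : Cert) (e : Fl) : Bool :=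
  decide (e.u < C.k) && (decide (e.v < C.k) && (decide (e.u ≠ e.v) &&
  (decide (e.t = swl C.k e.s e.u e.v) &&
  ((C.free.contains (e.u, e.v) && decide (gd e.s e.v < gd e.s e.u)) ||
    C.comp.any fun c => decide (c.1 = e.u) && (decide (c.2.1 = e.v) &&
      (decide (gd e.s e.u < gd e.s e.v) &&
      c.2.2.all fun t => !(decide (gd e.s e.u < gd e.s t) && decide (gd e.s t < gd e.s e.v))))))))

def cons (C : Cert) (s : List ℕ) : Bool := C.cmp.all fun p => decide (gd s p.1 < gd s p.2)

def coef (C : Cert) (s : List ℕ) : ℕ :=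
  (C.lam.map fun p => if gd s p.2.1 < gd s p.1 then p.2.2 else 0).sum

def outf (C : Cert) (s : List ℕ) : ℕ := (C.flow.map fun e => if e.s = s then e.y else 0).sum

def inf' (C : Cert) (s : List ℕ) : ℕ := (C.flow.map fun e => if e.t = s then e.y else 0).sum

def Lam (C : Cert) : ℕ := (C.lam.map fun p => p.2.2).sum

def chkS (C : Cert) (s : List ℕ) : Bool :=
  !(cons C s) || decide (inf' C s + 14 * Lam C ≤ 39 * coef C s + outf C s)

def check (C : Cert) : Bool :=
  decide (0 < Lam C) && (C.lam.all (fun p => C.free.contains (p.1, p.2.1)) &&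
    (C.flow.all (okFlow C) && ((List.range C.k).permutations').all (chkS C)))

section
variable {P : Type} [PartialOrder P]

/-- `y` has the predecessors of `x`, and `x` has the successors of `y`. -/
def Dom (x y : P) : Prop := (∀ z, z < x → z < y) ∧ (∀ z, y < z → x < z)

structure IsWin (C : Cert) (w : ℕ → P) : Prop where
  inj : ∀ i < C.k, ∀ j < C.k, w i = w j → i = j
  cmp : ∀ p ∈ C.cmp, p.1 < C.k ∧ p.2 < C.k ∧ w p.1 < w p.2
  free : ∀ p ∈ C.free, p.1 < C.k ∧ p.2 < C.k ∧ p.1 ≠ p.2 ∧ Dom (w p.1) (w p.2)
  comp : ∀ c ∈ C.comp, Dom (w c.1) (w c.2.1) ∧ ¬ w c.1 < w c.2.1 ∧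
    ∀ z, (w c.1 < z ∧ ¬ w c.2.1 < z) ∨ (z < w c.2.1 ∧ ¬ z < w c.1) →
      ∃ t ∈ c.2.2, t < C.k ∧ z = w t

variable [Fintype P]

open Classical in
/-- The linear extensions. -/
noncomputable def LE (P : Type) [PartialOrder P] [Fintype P] :
    Finset (P ≃ Fin (Fintype.card P)) :=
  univ.filter fun f => Monotone f

lemma mem_LE (f : P ≃ Fin (Fintype.card P)) : f ∈ LE P ↔ Monotone f := by
  classical
  simp [LE]

open Classical in
/-- The number of linear extensions with `y` before `x`. -/
noncomputable def inv (x y : P) : ℕ := ((LE P).filter fun f => f y < f x).card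

lemma prob_eq_inv (x y : P) : prob P y x = (inv x y : ℝ) / (LE P).card := by
  classical
  unfold prob inv LE
  rw [Nat.card_eq_fintype_card, Nat.card_eq_fintype_card, Fintype.card_subtype,
    Fintype.card_subtype, filter_filter]

lemma LE_pos : 0 < (LE P).card := by
  classical
  obtain ⟨f⟩ := LEn_nonempty (P := P) rfl
  exact card_pos.2 ⟨f.1, (mem_LE _).2 f.2⟩

/-! ### The order of the window -/

/-- The ranks of the elements of the window. -/
noncomputable def pat (k : ℕ) (w : ℕ → P) (f : P ≃ Fin (Fintype.card P)) : List ℕ :=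
  List.ofFn fun i : Fin k => (univ.filter fun j : Fin k => f (w j) < f (w i)).card

lemma gd_pat {k : ℕ} (w : ℕ → P) (f : P ≃ Fin (Fintype.card P)) {i : ℕ} (hi : i < k) :
    gd (pat k w f) i = (univ.filter fun j : Fin k => f (w j) < f (w i)).card := by
  unfold gd pat
  rw [List.getD_eq_getElem _ _ (by simpa using hi)]
  simp

lemma length_pat (k : ℕ) (w : ℕ → P) (f : P ≃ Fin (Fintype.card P)) :
    (pat k w f).length = k := by
  simp [pat]

lemma pat_lt {k : ℕ} (w : ℕ → P) (f : P ≃ Fin (Fintype.card P)) {i j : ℕ} (hi : i < k)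
    (hj : j < k) : gd (pat k w f) i < gd (pat k w f) j ↔ f (w i) < f (w j) := by
  classical
  have key : ∀ {i j : ℕ} (hi : i < k) (hj : j < k), f (w i) < f (w j) →
      gd (pat k w f) i < gd (pat k w f) j := by
    intro i j hi hj h
    rw [gd_pat w f hi, gd_pat w f hj]
    apply card_lt_card
    rw [ssubset_iff_of_subset]
    · exact ⟨⟨i, hi⟩, by simp [h], by simp⟩
    · intro a ha
      simp only [mem_filter, mem_univ, true_and] at ha ⊢
      exact ha.trans h
  have key2 : ∀ {i j : ℕ} (hi : i < k) (hj : j < k), f (w i) ≤ f (w j) →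
      gd (pat k w f) i ≤ gd (pat k w f) j := by
    intro i j hi hj h
    rw [gd_pat w f hi, gd_pat w f hj]
    apply card_le_card
    intro a ha
    simp only [mem_filter, mem_univ, true_and] at ha ⊢
    exact ha.trans_le h
  constructor
  · intro h
    by_contra hcon
    exact absurd (key2 hj hi (not_lt.1 hcon)) (not_le.2 h)
  · exact key hi hj

lemma pat_mem {k : ℕ} (w : ℕ → P) (hw : ∀ i < k, ∀ j < k, w i = w j → i = j)
    (f : P ≃ Fin (Fintype.card P)) : pat k w f ∈ (List.range k).permutations' := by
  classical
  rw [List.mem_permutations']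
  have hnd : (pat k w f).Nodup := by
    unfold pat
    rw [List.nodup_ofFn]
    intro i j hij
    by_contra hne
    have h1 : f (w i) ≠ f (w j) := fun h => hne (Fin.ext (hw i i.2 j j.2 (f.injective h)))
    rcases lt_or_gt_of_ne h1 with h | h
    · have := (pat_lt w f i.2 j.2).2 h
      rw [gd_pat w f i.2, gd_pat w f j.2] at this
      simp only at hij
      omega
    · have := (pat_lt w f j.2 i.2).2 h
      rw [gd_pat w f i.2, gd_pat w f j.2] at this
      simp only at hij
      omega
  have hsub : pat k w f ⊆ List.range k := by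
    intro a ha
    unfold pat at ha
    rw [List.mem_ofFn] at ha
    obtain ⟨i, rfl⟩ := ha
    rw [List.mem_range]
    calc (univ.filter fun j : Fin k => f (w j) < f (w i)).card < (univ : Finset (Fin k)).card := by
          apply card_lt_card
          rw [ssubset_iff_of_subset (filter_subset _ _)]
          exact ⟨i, mem_univ _, by simp⟩
      _ = k := by simp
  exact (hnd.subperm hsub).perm_of_length_le (by rw [length_pat, List.length_range])

/-- Exchange of the positions of `x` and `y`. -/
noncomputable def sw (x y : P) (f : P ≃ Fin (Fintype.card P)) : P ≃ Fin (Fintype.card P) := by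
  classical
  exact (Equiv.swap x y).trans f

lemma sw_left (x y : P) (f : P ≃ Fin (Fintype.card P)) : sw x y f x = f y := by
  simp [sw]

lemma sw_right (x y : P) (f : P ≃ Fin (Fintype.card P)) : sw x y f y = f x := by
  simp [sw]

lemma sw_other {x y z : P} (f : P ≃ Fin (Fintype.card P)) (hx : z ≠ x) (hy : z ≠ y) :
    sw x y f z = f z := by
  classical
  simp [sw, Equiv.swap_apply_of_ne_of_ne hx hy]

lemma sw_inj (x y : P) : Function.Injective (sw x y) := by
  classical
  intro f g h
  ext z
  have := congrArg (fun e : P ≃ Fin (Fintype.card P) => e (Equiv.swap x y z)) h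
  simp only [sw, Equiv.trans_apply, Equiv.swap_apply_self] at this
  rw [this]

lemma pat_sw {k : ℕ} (w : ℕ → P) (hw : ∀ i < k, ∀ j < k, w i = w j → i = j)
    (f : P ≃ Fin (Fintype.card P)) {u v : ℕ} (hu : u < k) (hv : v < k) (huv : u ≠ v) :
    pat k w (sw (w u) (w v) f) = swl k (pat k w f) u v := by
  classical
  have hval : ∀ i, i < k → sw (w u) (w v) f (w i) =
      f (w (if i = u then v else if i = v then u else i)) := by
    intro i hi
    split_ifs with h1 h2
    · rw [h1, sw_left]
    · rw [h2, sw_right]
    · exact sw_other f (fun h => h1 (hw i hi u hu h)) (fun h => h2 (hw i hi v hv h))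
  apply List.ext_getElem
  · simp [pat, swl]
  · intro i h1 h2
    have hi : i < k := by simpa [pat] using h1
    have hσ : (if i = u then v else if i = v then u else i) < k := by split_ifs <;> assumption
    have e1 : (pat k w (sw (w u) (w v) f))[i] = gd (pat k w (sw (w u) (w v) f)) i := by
      unfold gd
      rw [List.getD_eq_getElem]
    have e2 : (swl k (pat k w f) u v)[i] =
        gd (pat k w f) (if i = u then v else if i = v then u else i) := by
      simp [swl]
    rw [e1, e2, gd_pat _ _ hi, gd_pat _ _ hσ]
    let σ : Fin k ≃ Fin k := Equiv.swap ⟨u, hu⟩ ⟨v, hv⟩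
    have hσv : ∀ j : Fin k, ((σ j : Fin k) : ℕ) = if (j : ℕ) = u then v else
        if (j : ℕ) = v then u else j := by
      intro j
      by_cases c1 : (j : ℕ) = u
      · have : j = ⟨u, hu⟩ := Fin.ext c1
        rw [if_pos c1, this, Equiv.swap_apply_left]
      · by_cases c2 : (j : ℕ) = v
        · have : j = ⟨v, hv⟩ := Fin.ext c2
          rw [if_neg c1, if_pos c2, this, Equiv.swap_apply_right]
        · rw [if_neg c1, if_neg c2, Equiv.swap_apply_of_ne_of_ne]
          · exact fun h => c1 (congrArg Fin.val h)
          · exact fun h => c2 (congrArg Fin.val h)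
    refine card_bij (fun j _ => σ j) ?_ (fun a _ b _ h => σ.injective h) ?_
    · intro j hj
      simp only [mem_filter, mem_univ, true_and] at hj ⊢
      rw [hval j j.2, hval i hi] at hj
      rw [hσv]
      exact hj
    · intro b hb
      refine ⟨σ b, ?_, by simp [σ]⟩
      simp only [mem_filter, mem_univ, true_and] at hb ⊢
      rw [hval _ (σ b).2, hval i hi, ← hσv (σ b)]
      have : σ (σ b) = b := by simp [σ]
      rw [this]
      exact hb

end

end Pool.Agent.Q109.SO
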