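import Pool.Agent.Q109.SO.Sound

set_option autoImplicit false

/-!
The certificates of the thirteen windows.
-/

namespace Pool.Agent.Q109.SO

def ctw : Cert where
  k := 2
  cmp := []
  free := [(0, 1)]
  comp := [(0, 1, [])]
  lam := [(0, 1, 1)]
  flow := [
    ⟨[0, 1], [1, 0], 0, 1, 14⟩]

theorem ctw_ok : check ctw = true := by decide +kernel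

def cL10 : Cert where
  k := 5
  cmp := [(0, 2), (0, 3), (0, 4), (1, 4), (2, 4)]
  free := [(0, 1), (1, 2), (1, 3), (2, 3), (3, 4)]
  comp := [(1, 2, [0]), (2, 3, [4])]
  lam := [(1, 2, 3), (2, 3, 8)]
  flow := [
    ⟨[0, 1, 2, 4, 3], [0, 1, 2, 3, 4], 3, 4, 351⟩,
    ⟨[1, 0, 2, 4, 3], [0, 1, 2, 4, 3], 0, 1, 156⟩,
    ⟨[0, 1, 2, 3, 4], [0, 1, 3, 2, 4], 2, 3, 158⟩,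
    ⟨[0, 2, 1, 3, 4], [0, 2, 3, 1, 4], 2, 3, 384⟩,
    ⟨[0, 1, 2, 3, 4], [0, 2, 1, 3, 4], 1, 2, 347⟩,
    ⟨[0, 2, 3, 1, 4], [0, 3, 2, 1, 4], 1, 2, 226⟩,
    ⟨[0, 3, 1, 2, 4], [0, 3, 2, 1, 4], 2, 3, 37⟩,
    ⟨[0, 2, 1, 4, 3], [0, 1, 2, 4, 3], 1, 2, 37⟩,
    ⟨[1, 0, 2, 3, 4], [1, 0, 3, 2, 4], 2, 3, 154⟩]

theorem cL10_ok : check cL10 = true := by decide +kernel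

def cL20 : Cert where
  k := 6
  cmp := [(0, 2), (0, 3), (0, 4), (0, 5), (1, 4), (1, 5), (2, 4), (2, 5)]
  free := [(0, 1), (1, 2), (1, 3), (2, 3), (3, 4), (3, 5), (4, 5)]
  comp := [(1, 2, [0]), (2, 3, [4, 5])]
  lam := [(1, 2, 77), (4, 5, 1)]
  flow := [
    ⟨[0, 1, 2, 4, 3, 5], [0, 1, 2, 3, 4, 5], 3, 4, 273⟩,
    ⟨[0, 1, 2, 4, 5, 3], [0, 1, 2, 3, 5, 4], 3, 5, 312⟩,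
    ⟨[0, 1, 2, 5, 3, 4], [0, 1, 2, 3, 5, 4], 3, 4, 273⟩,
    ⟨[0, 1, 2, 5, 4, 3], [0, 1, 2, 4, 5, 3], 3, 4, 156⟩,
    ⟨[1, 0, 2, 3, 4, 5], [0, 1, 2, 3, 4, 5], 0, 1, 2184⟩,
    ⟨[1, 0, 2, 3, 5, 4], [0, 1, 2, 3, 5, 4], 0, 1, 2106⟩,
    ⟨[1, 0, 2, 4, 3, 5], [0, 1, 2, 4, 3, 5], 0, 1, 1092⟩,
    ⟨[1, 0, 2, 4, 5, 3], [0, 1, 2, 4, 5, 3], 0, 1, 1053⟩,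
    ⟨[1, 0, 2, 5, 3, 4], [0, 1, 2, 5, 3, 4], 0, 1, 1092⟩,
    ⟨[1, 0, 2, 5, 4, 3], [0, 1, 2, 5, 4, 3], 0, 1, 1053⟩,
    ⟨[0, 1, 2, 3, 4, 5], [0, 2, 1, 3, 4, 5], 1, 2, 1911⟩,
    ⟨[0, 1, 3, 2, 4, 5], [0, 3, 1, 2, 4, 5], 1, 2, 2730⟩,
    ⟨[0, 1, 2, 3, 4, 5], [0, 1, 3, 2, 4, 5], 2, 3, 1638⟩,
    ⟨[0, 3, 1, 2, 4, 5], [0, 3, 2, 1, 4, 5], 2, 3, 819⟩,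
    ⟨[0, 2, 3, 1, 4, 5], [0, 3, 2, 1, 4, 5], 1, 2, 1092⟩,
    ⟨[0, 1, 2, 3, 5, 4], [0, 2, 1, 3, 5, 4], 1, 2, 1950⟩,
    ⟨[0, 1, 3, 2, 5, 4], [0, 3, 1, 2, 5, 4], 1, 2, 2847⟩,
    ⟨[0, 1, 2, 3, 5, 4], [0, 1, 3, 2, 5, 4], 2, 3, 1794⟩,
    ⟨[0, 3, 1, 2, 5, 4], [0, 3, 2, 1, 5, 4], 2, 3, 897⟩,
    ⟨[0, 2, 3, 1, 5, 4], [0, 3, 2, 1, 5, 4], 1, 2, 1053⟩,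
    ⟨[0, 1, 2, 4, 3, 5], [0, 2, 1, 4, 3, 5], 1, 2, 1911⟩,
    ⟨[0, 1, 2, 4, 5, 3], [0, 2, 1, 4, 5, 3], 1, 2, 1950⟩,
    ⟨[0, 1, 2, 5, 3, 4], [0, 2, 1, 5, 3, 4], 1, 2, 1911⟩,
    ⟨[0, 1, 2, 5, 4, 3], [0, 2, 1, 5, 4, 3], 1, 2, 1950⟩,
    ⟨[1, 0, 3, 2, 4, 5], [1, 0, 2, 3, 4, 5], 2, 3, 1092⟩,
    ⟨[1, 0, 3, 2, 5, 4], [1, 0, 2, 3, 5, 4], 2, 3, 1053⟩]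

theorem cL20_ok : check cL20 = true := by decide +kernel

def cL01 : Cert where
  k := 5
  cmp := [(0, 3), (0, 4), (1, 4)]
  free := [(0, 1), (0, 2), (1, 2), (1, 3), (2, 3), (2, 4), (3, 4)]
  comp := [(2, 3, [0]), (3, 4, [1])]
  lam := [(2, 3, 10), (3, 4, 21)]
  flow := [
    ⟨[0, 2, 1, 3, 4], [0, 1, 2, 3, 4], 1, 2, 819⟩,
    ⟨[0, 3, 1, 2, 4], [0, 2, 1, 3, 4], 1, 3, 546⟩,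
    ⟨[1, 2, 0, 3, 4], [1, 0, 2, 3, 4], 1, 2, 702⟩,
    ⟨[1, 3, 0, 2, 4], [1, 2, 0, 3, 4], 1, 3, 468⟩,
    ⟨[2, 0, 1, 3, 4], [1, 0, 2, 3, 4], 0, 2, 117⟩,
    ⟨[2, 1, 0, 3, 4], [1, 2, 0, 3, 4], 0, 1, 117⟩,
    ⟨[0, 1, 2, 3, 4], [0, 1, 2, 4, 3], 3, 4, 385⟩,
    ⟨[0, 1, 3, 2, 4], [0, 1, 3, 4, 2], 3, 4, 912⟩,
    ⟨[0, 1, 2, 3, 4], [0, 1, 3, 2, 4], 2, 3, 868⟩,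
    ⟨[0, 1, 3, 4, 2], [0, 1, 4, 3, 2], 2, 3, 527⟩,
    ⟨[0, 1, 4, 2, 3], [0, 1, 4, 3, 2], 3, 4, 44⟩,
    ⟨[0, 2, 1, 3, 4], [0, 2, 1, 4, 3], 3, 4, 205⟩,
    ⟨[0, 2, 3, 1, 4], [0, 2, 1, 3, 4], 2, 3, 44⟩,
    ⟨[0, 2, 4, 1, 3], [0, 2, 1, 4, 3], 2, 3, 44⟩,
    ⟨[0, 3, 2, 1, 4], [0, 3, 1, 2, 4], 2, 3, 44⟩,
    ⟨[1, 0, 2, 3, 4], [1, 0, 2, 4, 3], 3, 4, 385⟩,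
    ⟨[1, 0, 3, 2, 4], [1, 0, 3, 4, 2], 3, 4, 912⟩,
    ⟨[1, 0, 2, 3, 4], [1, 0, 3, 2, 4], 2, 3, 868⟩,
    ⟨[1, 0, 3, 4, 2], [1, 0, 4, 3, 2], 2, 3, 527⟩,
    ⟨[1, 0, 4, 2, 3], [1, 0, 4, 3, 2], 3, 4, 44⟩,
    ⟨[1, 2, 0, 3, 4], [1, 2, 0, 4, 3], 3, 4, 317⟩,
    ⟨[2, 0, 1, 3, 4], [2, 0, 1, 4, 3], 3, 4, 317⟩,
    ⟨[2, 1, 0, 3, 4], [2, 1, 0, 4, 3], 3, 4, 317⟩]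

theorem cL01_ok : check cL01 = true := by decide +kernel

def cL11 : Cert where
  k := 6
  cmp := [(0, 3), (0, 4), (0, 5), (1, 4), (1, 5), (2, 5), (3, 5)]
  free := [(0, 1), (0, 2), (1, 2), (1, 3), (2, 3), (2, 4), (3, 4), (4, 5)]
  comp := [(2, 3, [0]), (3, 4, [1, 5])]
  lam := [(0, 1, 9), (1, 2, 7), (2, 3, 42)]
  flow := [
    ⟨[0, 2, 1, 3, 5, 4], [0, 2, 1, 3, 4, 5], 4, 5, 195⟩,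
    ⟨[1, 0, 2, 3, 5, 4], [1, 0, 2, 3, 4, 5], 4, 5, 39⟩,
    ⟨[1, 2, 0, 3, 4, 5], [0, 2, 1, 3, 4, 5], 0, 2, 351⟩,
    ⟨[1, 2, 0, 3, 4, 5], [1, 0, 2, 3, 4, 5], 1, 2, 1131⟩,
    ⟨[1, 2, 0, 3, 5, 4], [1, 0, 2, 3, 5, 4], 1, 2, 741⟩,
    ⟨[1, 3, 0, 2, 4, 5], [0, 3, 1, 2, 4, 5], 0, 2, 546⟩,
    ⟨[1, 3, 0, 2, 5, 4], [0, 3, 1, 2, 5, 4], 0, 2, 546⟩,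
    ⟨[2, 0, 1, 3, 4, 5], [1, 0, 2, 3, 4, 5], 0, 2, 936⟩,
    ⟨[2, 0, 1, 3, 5, 4], [0, 2, 1, 3, 5, 4], 0, 1, 468⟩,
    ⟨[2, 1, 0, 3, 4, 5], [1, 2, 0, 3, 4, 5], 0, 1, 390⟩,
    ⟨[2, 1, 0, 3, 5, 4], [1, 2, 0, 3, 5, 4], 0, 1, 195⟩,
    ⟨[0, 1, 2, 3, 4, 5], [0, 1, 3, 2, 4, 5], 2, 3, 812⟩,
    ⟨[0, 1, 2, 4, 3, 5], [0, 1, 4, 2, 3, 5], 2, 3, 812⟩,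
    ⟨[0, 1, 3, 4, 2, 5], [0, 1, 3, 2, 4, 5], 3, 4, 14⟩,
    ⟨[0, 1, 3, 4, 2, 5], [0, 1, 4, 3, 2, 5], 2, 3, 798⟩,
    ⟨[0, 1, 2, 3, 5, 4], [0, 1, 3, 2, 5, 4], 2, 3, 812⟩,
    ⟨[0, 2, 1, 3, 4, 5], [0, 2, 3, 1, 4, 5], 2, 3, 826⟩,
    ⟨[0, 2, 1, 4, 3, 5], [0, 2, 4, 1, 3, 5], 2, 3, 798⟩,
    ⟨[0, 2, 1, 3, 4, 5], [0, 2, 1, 4, 3, 5], 3, 4, 259⟩,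
    ⟨[0, 2, 1, 3, 5, 4], [0, 2, 3, 1, 5, 4], 2, 3, 812⟩,
    ⟨[0, 3, 1, 2, 4, 5], [0, 3, 2, 1, 4, 5], 2, 3, 1085⟩,
    ⟨[0, 3, 1, 2, 5, 4], [0, 3, 2, 1, 5, 4], 2, 3, 1085⟩,
    ⟨[1, 0, 2, 3, 4, 5], [1, 0, 3, 2, 4, 5], 2, 3, 1390⟩,
    ⟨[1, 0, 2, 4, 3, 5], [1, 0, 4, 2, 3, 5], 2, 3, 1638⟩,
    ⟨[1, 0, 2, 3, 4, 5], [1, 0, 2, 4, 3, 5], 3, 4, 1177⟩,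
    ⟨[1, 0, 3, 4, 2, 5], [1, 0, 4, 3, 2, 5], 2, 3, 674⟩,
    ⟨[1, 0, 3, 2, 4, 5], [1, 0, 3, 4, 2, 5], 3, 4, 213⟩,
    ⟨[1, 0, 4, 2, 3, 5], [1, 0, 4, 3, 2, 5], 3, 4, 461⟩,
    ⟨[1, 0, 2, 3, 5, 4], [1, 0, 3, 2, 5, 4], 2, 3, 1163⟩,
    ⟨[1, 2, 0, 4, 3, 5], [1, 2, 0, 3, 4, 5], 3, 4, 539⟩,
    ⟨[2, 0, 1, 4, 3, 5], [2, 0, 1, 3, 4, 5], 3, 4, 461⟩,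
    ⟨[2, 1, 0, 4, 3, 5], [2, 1, 0, 3, 4, 5], 3, 4, 188⟩]

theorem cL11_ok : check cL11 = true := by decide +kernel

def cL02 : Cert where
  k := 6
  cmp := [(0, 4), (0, 5), (1, 5), (2, 5)]
  free := [(0, 1), (0, 2), (0, 3), (1, 2), (1, 3), (1, 4), (2, 3), (2, 4), (3, 4), (3, 5), (4, 5)]
  comp := [(3, 4, [0]), (4, 5, [1, 2])]
  lam := [(1, 2, 2), (3, 4, 6)]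
  flow := [
    ⟨[0, 2, 3, 1, 4, 5], [0, 2, 1, 3, 4, 5], 2, 3, 117⟩,
    ⟨[0, 2, 4, 1, 3, 5], [0, 2, 3, 1, 4, 5], 2, 4, 117⟩,
    ⟨[0, 3, 1, 2, 4, 5], [0, 2, 1, 3, 4, 5], 1, 3, 39⟩,
    ⟨[0, 3, 2, 1, 4, 5], [0, 3, 1, 2, 4, 5], 2, 3, 117⟩,
    ⟨[0, 3, 4, 1, 2, 5], [0, 3, 2, 1, 4, 5], 2, 4, 117⟩,
    ⟨[1, 2, 3, 0, 4, 5], [1, 2, 0, 3, 4, 5], 2, 3, 468⟩,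
    ⟨[1, 2, 4, 0, 3, 5], [1, 2, 3, 0, 4, 5], 2, 4, 234⟩,
    ⟨[1, 3, 2, 0, 4, 5], [1, 3, 0, 2, 4, 5], 2, 3, 234⟩,
    ⟨[1, 3, 4, 0, 2, 5], [0, 3, 4, 1, 2, 5], 0, 3, 117⟩,
    ⟨[1, 4, 2, 0, 3, 5], [1, 4, 0, 2, 3, 5], 2, 3, 78⟩,
    ⟨[1, 4, 3, 0, 2, 5], [0, 4, 3, 1, 2, 5], 0, 3, 39⟩,
    ⟨[2, 0, 1, 3, 4, 5], [0, 2, 1, 3, 4, 5], 0, 1, 312⟩,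
    ⟨[2, 0, 3, 1, 4, 5], [2, 0, 1, 3, 4, 5], 2, 3, 312⟩,
    ⟨[2, 0, 4, 1, 3, 5], [0, 2, 4, 1, 3, 5], 0, 1, 117⟩,
    ⟨[2, 1, 3, 0, 4, 5], [2, 0, 3, 1, 4, 5], 1, 3, 78⟩,
    ⟨[2, 1, 3, 0, 4, 5], [2, 1, 0, 3, 4, 5], 2, 3, 156⟩,
    ⟨[2, 1, 4, 0, 3, 5], [1, 2, 4, 0, 3, 5], 0, 1, 117⟩,
    ⟨[2, 3, 0, 1, 4, 5], [0, 3, 2, 1, 4, 5], 0, 2, 78⟩,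
    ⟨[2, 3, 0, 1, 4, 5], [1, 3, 0, 2, 4, 5], 0, 3, 78⟩,
    ⟨[2, 3, 1, 0, 4, 5], [1, 3, 2, 0, 4, 5], 0, 2, 156⟩,
    ⟨[2, 4, 0, 1, 3, 5], [0, 4, 2, 1, 3, 5], 0, 2, 39⟩,
    ⟨[2, 4, 1, 0, 3, 5], [1, 4, 2, 0, 3, 5], 0, 2, 39⟩,
    ⟨[3, 0, 1, 2, 4, 5], [0, 3, 1, 2, 4, 5], 0, 1, 234⟩,
    ⟨[3, 0, 2, 1, 4, 5], [0, 3, 2, 1, 4, 5], 0, 1, 234⟩,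
    ⟨[3, 1, 0, 2, 4, 5], [2, 1, 0, 3, 4, 5], 0, 3, 312⟩,
    ⟨[3, 1, 2, 0, 4, 5], [3, 1, 0, 2, 4, 5], 2, 3, 234⟩,
    ⟨[3, 2, 0, 1, 4, 5], [2, 3, 0, 1, 4, 5], 0, 1, 78⟩,
    ⟨[3, 2, 1, 0, 4, 5], [2, 3, 1, 0, 4, 5], 0, 1, 78⟩,
    ⟨[0, 1, 2, 3, 4, 5], [0, 1, 2, 4, 3, 5], 3, 4, 112⟩,
    ⟨[0, 1, 2, 3, 5, 4], [0, 1, 2, 5, 3, 4], 3, 4, 112⟩,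
    ⟨[0, 1, 2, 4, 5, 3], [0, 1, 2, 4, 3, 5], 4, 5, 10⟩,
    ⟨[0, 1, 2, 4, 5, 3], [0, 1, 2, 5, 4, 3], 3, 4, 102⟩,
    ⟨[0, 1, 3, 2, 4, 5], [0, 1, 3, 4, 2, 5], 3, 4, 112⟩,
    ⟨[0, 1, 3, 2, 5, 4], [0, 1, 3, 5, 2, 4], 3, 4, 112⟩,
    ⟨[0, 1, 4, 2, 3, 5], [0, 1, 4, 3, 2, 5], 3, 4, 112⟩,
    ⟨[0, 2, 1, 3, 4, 5], [0, 2, 1, 4, 3, 5], 3, 4, 302⟩,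
    ⟨[0, 2, 1, 3, 5, 4], [0, 2, 1, 5, 3, 4], 3, 4, 234⟩,
    ⟨[0, 2, 1, 3, 4, 5], [0, 2, 1, 3, 5, 4], 4, 5, 200⟩,
    ⟨[0, 2, 1, 4, 5, 3], [0, 2, 1, 5, 4, 3], 3, 4, 136⟩,
    ⟨[0, 2, 1, 4, 3, 5], [0, 2, 1, 4, 5, 3], 4, 5, 102⟩,
    ⟨[0, 2, 1, 5, 3, 4], [0, 2, 1, 5, 4, 3], 4, 5, 34⟩,
    ⟨[0, 2, 3, 1, 4, 5], [0, 2, 3, 4, 1, 5], 3, 4, 112⟩,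
    ⟨[0, 2, 3, 1, 5, 4], [0, 2, 3, 5, 1, 4], 3, 4, 112⟩,
    ⟨[0, 2, 4, 1, 3, 5], [0, 2, 4, 3, 1, 5], 3, 4, 112⟩,
    ⟨[0, 3, 1, 2, 4, 5], [0, 3, 1, 4, 2, 5], 3, 4, 200⟩,
    ⟨[0, 3, 1, 2, 5, 4], [0, 3, 1, 5, 2, 4], 3, 4, 180⟩,
    ⟨[0, 3, 1, 2, 4, 5], [0, 3, 1, 2, 5, 4], 4, 5, 146⟩,
    ⟨[0, 3, 2, 1, 4, 5], [0, 3, 2, 4, 1, 5], 3, 4, 200⟩,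
    ⟨[0, 3, 2, 1, 5, 4], [0, 3, 2, 5, 1, 4], 3, 4, 180⟩,
    ⟨[0, 3, 2, 1, 4, 5], [0, 3, 2, 1, 5, 4], 4, 5, 146⟩,
    ⟨[0, 3, 4, 1, 2, 5], [0, 3, 4, 2, 1, 5], 3, 4, 112⟩,
    ⟨[0, 4, 1, 2, 3, 5], [0, 4, 1, 3, 2, 5], 3, 4, 34⟩,
    ⟨[0, 4, 2, 1, 3, 5], [0, 4, 2, 3, 1, 5], 3, 4, 73⟩,
    ⟨[0, 4, 3, 1, 2, 5], [0, 4, 3, 2, 1, 5], 3, 4, 73⟩,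
    ⟨[1, 0, 2, 3, 4, 5], [1, 0, 2, 4, 3, 5], 3, 4, 112⟩,
    ⟨[1, 0, 2, 3, 5, 4], [1, 0, 2, 5, 3, 4], 3, 4, 112⟩,
    ⟨[1, 0, 2, 4, 5, 3], [1, 0, 2, 4, 3, 5], 4, 5, 10⟩,
    ⟨[1, 0, 2, 4, 5, 3], [1, 0, 2, 5, 4, 3], 3, 4, 102⟩,
    ⟨[1, 0, 3, 2, 4, 5], [1, 0, 3, 4, 2, 5], 3, 4, 112⟩,
    ⟨[1, 0, 3, 2, 5, 4], [1, 0, 3, 5, 2, 4], 3, 4, 112⟩,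
    ⟨[1, 0, 4, 2, 3, 5], [1, 0, 4, 3, 2, 5], 3, 4, 112⟩,
    ⟨[1, 2, 0, 3, 4, 5], [1, 2, 0, 4, 3, 5], 3, 4, 302⟩,
    ⟨[1, 2, 0, 3, 5, 4], [1, 2, 0, 5, 3, 4], 3, 4, 234⟩,
    ⟨[1, 2, 0, 3, 4, 5], [1, 2, 0, 3, 5, 4], 4, 5, 200⟩,
    ⟨[1, 2, 0, 4, 5, 3], [1, 2, 0, 5, 4, 3], 3, 4, 136⟩,
    ⟨[1, 2, 0, 4, 3, 5], [1, 2, 0, 4, 5, 3], 4, 5, 102⟩,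
    ⟨[1, 2, 0, 5, 3, 4], [1, 2, 0, 5, 4, 3], 4, 5, 34⟩,
    ⟨[1, 2, 3, 0, 5, 4], [1, 2, 3, 0, 4, 5], 4, 5, 112⟩,
    ⟨[1, 3, 0, 2, 4, 5], [1, 3, 0, 4, 2, 5], 3, 4, 200⟩,
    ⟨[1, 3, 0, 2, 5, 4], [1, 3, 0, 5, 2, 4], 3, 4, 180⟩,
    ⟨[1, 3, 0, 2, 4, 5], [1, 3, 0, 2, 5, 4], 4, 5, 146⟩,
    ⟨[1, 3, 2, 0, 5, 4], [1, 3, 2, 0, 4, 5], 4, 5, 34⟩,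
    ⟨[1, 4, 0, 2, 3, 5], [1, 4, 0, 3, 2, 5], 3, 4, 112⟩,
    ⟨[2, 0, 1, 3, 4, 5], [2, 0, 1, 4, 3, 5], 3, 4, 112⟩,
    ⟨[2, 0, 1, 3, 5, 4], [2, 0, 1, 5, 3, 4], 3, 4, 112⟩,
    ⟨[2, 0, 1, 4, 5, 3], [2, 0, 1, 4, 3, 5], 4, 5, 10⟩,
    ⟨[2, 0, 1, 4, 5, 3], [2, 0, 1, 5, 4, 3], 3, 4, 102⟩,
    ⟨[2, 0, 3, 1, 5, 4], [2, 0, 3, 1, 4, 5], 4, 5, 112⟩,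
    ⟨[2, 1, 0, 3, 4, 5], [2, 1, 0, 4, 3, 5], 3, 4, 302⟩,
    ⟨[2, 1, 0, 3, 5, 4], [2, 1, 0, 5, 3, 4], 3, 4, 234⟩,
    ⟨[2, 1, 0, 3, 4, 5], [2, 1, 0, 3, 5, 4], 4, 5, 200⟩,
    ⟨[2, 1, 0, 4, 5, 3], [2, 1, 0, 5, 4, 3], 3, 4, 136⟩,
    ⟨[2, 1, 0, 4, 3, 5], [2, 1, 0, 4, 5, 3], 4, 5, 102⟩,
    ⟨[2, 1, 0, 5, 3, 4], [2, 1, 0, 5, 4, 3], 4, 5, 34⟩,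
    ⟨[2, 1, 3, 0, 5, 4], [2, 1, 3, 0, 4, 5], 4, 5, 112⟩,
    ⟨[2, 3, 0, 1, 5, 4], [2, 3, 0, 1, 4, 5], 4, 5, 34⟩,
    ⟨[2, 3, 1, 0, 5, 4], [2, 3, 1, 0, 4, 5], 4, 5, 34⟩,
    ⟨[3, 0, 1, 2, 5, 4], [3, 0, 1, 2, 4, 5], 4, 5, 112⟩,
    ⟨[3, 0, 2, 1, 5, 4], [3, 0, 2, 1, 4, 5], 4, 5, 112⟩,
    ⟨[3, 1, 0, 2, 5, 4], [3, 1, 0, 2, 4, 5], 4, 5, 34⟩,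
    ⟨[3, 1, 2, 0, 5, 4], [3, 1, 2, 0, 4, 5], 4, 5, 112⟩,
    ⟨[3, 2, 0, 1, 5, 4], [3, 2, 0, 1, 4, 5], 4, 5, 34⟩,
    ⟨[3, 2, 1, 0, 5, 4], [3, 2, 1, 0, 4, 5], 4, 5, 34⟩]

theorem cL02_ok : check cL02 = true := by decide +kernel

def cP4 : Cert where
  k := 4
  cmp := [(0, 2), (0, 3), (1, 3)]
  free := [(0, 1), (1, 2), (2, 3)]
  comp := [(0, 1, [2]), (1, 2, [0, 3]), (2, 3, [1])]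
  lam := [(0, 1, 1)]
  flow := [
    ⟨[0, 1, 2, 3], [1, 0, 2, 3], 0, 1, 28⟩,
    ⟨[0, 1, 3, 2], [1, 0, 3, 2], 0, 1, 14⟩,
    ⟨[0, 2, 1, 3], [0, 1, 2, 3], 1, 2, 14⟩,
    ⟨[1, 0, 2, 3], [1, 0, 3, 2], 2, 3, 3⟩]

theorem cP4_ok : check cP4 = true := by decide +kernel

def cP5 : Cert where
  k := 5
  cmp := [(0, 2), (0, 3), (0, 4), (1, 3), (1, 4), (2, 4)]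
  free := [(0, 1), (1, 2), (2, 3), (3, 4)]
  comp := [(0, 1, [2]), (1, 2, [0, 3]), (2, 3, [1, 4])]
  lam := [(0, 1, 8)]
  flow := [
    ⟨[0, 1, 2, 4, 3], [0, 1, 2, 3, 4], 3, 4, 39⟩,
    ⟨[0, 1, 2, 3, 4], [1, 0, 2, 3, 4], 0, 1, 263⟩,
    ⟨[0, 1, 3, 2, 4], [1, 0, 3, 2, 4], 0, 1, 112⟩,
    ⟨[0, 2, 1, 3, 4], [0, 1, 2, 3, 4], 1, 2, 112⟩,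
    ⟨[1, 0, 2, 3, 4], [1, 0, 3, 2, 4], 2, 3, 63⟩,
    ⟨[0, 1, 2, 4, 3], [1, 0, 2, 4, 3], 0, 1, 185⟩,
    ⟨[0, 2, 1, 4, 3], [0, 1, 2, 4, 3], 1, 2, 112⟩]

theorem cP5_ok : check cP5 = true := by decide +kernel

def cR10 : Cert where
  k := 5
  cmp := [(0, 3), (0, 4), (1, 4)]
  free := [(0, 1), (0, 2), (1, 2), (1, 3), (2, 3), (2, 4), (3, 4)]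
  comp := [(0, 1, [3]), (1, 2, [4])]
  lam := [(0, 1, 21), (1, 2, 10)]
  flow := [
    ⟨[0, 1, 3, 2, 4], [0, 1, 2, 3, 4], 2, 3, 819⟩,
    ⟨[0, 1, 3, 4, 2], [0, 1, 2, 4, 3], 2, 4, 234⟩,
    ⟨[0, 1, 4, 2, 3], [0, 1, 2, 4, 3], 2, 3, 585⟩,
    ⟨[0, 1, 4, 3, 2], [0, 1, 3, 4, 2], 2, 3, 117⟩,
    ⟨[0, 2, 3, 1, 4], [0, 1, 3, 2, 4], 1, 3, 546⟩,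
    ⟨[0, 2, 4, 1, 3], [0, 1, 4, 2, 3], 1, 3, 468⟩,
    ⟨[0, 1, 2, 3, 4], [1, 0, 2, 3, 4], 0, 1, 868⟩,
    ⟨[0, 2, 1, 3, 4], [2, 0, 1, 3, 4], 0, 1, 429⟩,
    ⟨[0, 1, 2, 3, 4], [0, 2, 1, 3, 4], 1, 2, 385⟩,
    ⟨[1, 2, 0, 3, 4], [2, 1, 0, 3, 4], 0, 1, 527⟩,
    ⟨[1, 0, 2, 3, 4], [1, 2, 0, 3, 4], 1, 2, 483⟩,
    ⟨[2, 0, 1, 3, 4], [2, 1, 0, 3, 4], 1, 2, 44⟩,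
    ⟨[0, 1, 2, 4, 3], [1, 0, 2, 4, 3], 0, 1, 868⟩,
    ⟨[0, 2, 1, 4, 3], [2, 0, 1, 4, 3], 0, 1, 429⟩,
    ⟨[0, 1, 2, 4, 3], [0, 2, 1, 4, 3], 1, 2, 385⟩,
    ⟨[1, 2, 0, 4, 3], [2, 1, 0, 4, 3], 0, 1, 527⟩,
    ⟨[1, 0, 2, 4, 3], [1, 2, 0, 4, 3], 1, 2, 483⟩,
    ⟨[2, 0, 1, 4, 3], [2, 1, 0, 4, 3], 1, 2, 44⟩,
    ⟨[0, 1, 3, 2, 4], [1, 0, 3, 2, 4], 0, 1, 205⟩,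
    ⟨[0, 3, 1, 2, 4], [0, 1, 3, 2, 4], 1, 2, 44⟩,
    ⟨[1, 3, 0, 2, 4], [1, 0, 3, 2, 4], 1, 2, 44⟩,
    ⟨[0, 1, 3, 4, 2], [1, 0, 3, 4, 2], 0, 1, 317⟩,
    ⟨[0, 1, 4, 2, 3], [1, 0, 4, 2, 3], 0, 1, 317⟩,
    ⟨[0, 1, 4, 3, 2], [1, 0, 4, 3, 2], 0, 1, 317⟩,
    ⟨[0, 3, 2, 1, 4], [0, 2, 3, 1, 4], 1, 2, 44⟩]

theorem cR10_ok : check cR10 = true := by decide +kernel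

def cR20 : Cert where
  k := 6
  cmp := [(0, 3), (0, 4), (0, 5), (1, 4), (1, 5)]
  free := [(0, 1), (0, 2), (1, 2), (1, 3), (2, 3), (2, 4), (2, 5), (3, 4), (3, 5), (4, 5)]
  comp := [(0, 1, [3]), (1, 2, [4, 5])]
  lam := [(0, 1, 9), (1, 2, 4)]
  flow := [
    ⟨[0, 1, 2, 4, 5, 3], [0, 1, 2, 4, 3, 5], 4, 5, 39⟩,
    ⟨[0, 1, 2, 5, 4, 3], [0, 1, 2, 4, 5, 3], 3, 4, 78⟩,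
    ⟨[0, 1, 2, 5, 4, 3], [0, 1, 2, 5, 3, 4], 4, 5, 39⟩,
    ⟨[0, 1, 3, 2, 4, 5], [0, 1, 2, 3, 4, 5], 2, 3, 351⟩,
    ⟨[0, 1, 3, 2, 5, 4], [0, 1, 2, 3, 5, 4], 2, 3, 351⟩,
    ⟨[0, 1, 3, 4, 2, 5], [0, 1, 2, 4, 3, 5], 2, 4, 78⟩,
    ⟨[0, 1, 3, 4, 5, 2], [0, 1, 2, 4, 5, 3], 2, 5, 78⟩,
    ⟨[0, 1, 3, 5, 2, 4], [0, 1, 2, 5, 3, 4], 2, 4, 78⟩,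
    ⟨[0, 1, 3, 5, 4, 2], [0, 1, 2, 5, 4, 3], 2, 5, 156⟩,
    ⟨[0, 1, 4, 2, 3, 5], [0, 1, 2, 4, 3, 5], 2, 3, 234⟩,
    ⟨[0, 1, 4, 2, 5, 3], [0, 1, 2, 4, 5, 3], 2, 3, 234⟩,
    ⟨[0, 1, 4, 3, 2, 5], [0, 1, 3, 4, 2, 5], 2, 3, 39⟩,
    ⟨[0, 1, 4, 3, 5, 2], [0, 1, 3, 4, 5, 2], 2, 3, 39⟩,
    ⟨[0, 1, 4, 5, 2, 3], [0, 1, 2, 5, 4, 3], 2, 4, 78⟩,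
    ⟨[0, 1, 4, 5, 3, 2], [0, 1, 3, 5, 4, 2], 2, 4, 78⟩,
    ⟨[0, 1, 5, 2, 3, 4], [0, 1, 2, 5, 3, 4], 2, 3, 234⟩,
    ⟨[0, 1, 5, 2, 4, 3], [0, 1, 2, 5, 4, 3], 2, 3, 234⟩,
    ⟨[0, 1, 5, 3, 2, 4], [0, 1, 3, 5, 2, 4], 2, 3, 39⟩,
    ⟨[0, 1, 5, 3, 4, 2], [0, 1, 3, 5, 4, 2], 2, 3, 39⟩,
    ⟨[0, 1, 5, 4, 2, 3], [0, 1, 4, 5, 2, 3], 2, 3, 39⟩,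
    ⟨[0, 1, 5, 4, 3, 2], [0, 1, 4, 5, 3, 2], 2, 3, 39⟩,
    ⟨[0, 2, 3, 1, 4, 5], [0, 1, 3, 2, 4, 5], 1, 3, 234⟩,
    ⟨[0, 2, 3, 1, 5, 4], [0, 1, 3, 2, 5, 4], 1, 3, 234⟩,
    ⟨[0, 2, 4, 1, 3, 5], [0, 1, 4, 2, 3, 5], 1, 3, 195⟩,
    ⟨[0, 2, 4, 1, 5, 3], [0, 1, 4, 2, 5, 3], 1, 3, 195⟩,
    ⟨[0, 2, 5, 1, 3, 4], [0, 1, 5, 2, 3, 4], 1, 3, 195⟩,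
    ⟨[0, 2, 5, 1, 4, 3], [0, 1, 5, 2, 4, 3], 1, 3, 195⟩,
    ⟨[0, 1, 2, 3, 4, 5], [1, 0, 2, 3, 4, 5], 0, 1, 364⟩,
    ⟨[0, 2, 1, 3, 4, 5], [2, 0, 1, 3, 4, 5], 0, 1, 195⟩,
    ⟨[0, 1, 2, 3, 4, 5], [0, 2, 1, 3, 4, 5], 1, 2, 169⟩,
    ⟨[1, 2, 0, 3, 4, 5], [2, 1, 0, 3, 4, 5], 0, 1, 221⟩,
    ⟨[1, 0, 2, 3, 4, 5], [1, 2, 0, 3, 4, 5], 1, 2, 195⟩,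
    ⟨[2, 0, 1, 3, 4, 5], [2, 1, 0, 3, 4, 5], 1, 2, 26⟩,
    ⟨[0, 1, 2, 3, 5, 4], [1, 0, 2, 3, 5, 4], 0, 1, 364⟩,
    ⟨[0, 2, 1, 3, 5, 4], [2, 0, 1, 3, 5, 4], 0, 1, 195⟩,
    ⟨[0, 1, 2, 3, 5, 4], [0, 2, 1, 3, 5, 4], 1, 2, 169⟩,
    ⟨[1, 2, 0, 3, 5, 4], [2, 1, 0, 3, 5, 4], 0, 1, 221⟩,
    ⟨[1, 0, 2, 3, 5, 4], [1, 2, 0, 3, 5, 4], 1, 2, 195⟩,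
    ⟨[2, 0, 1, 3, 5, 4], [2, 1, 0, 3, 5, 4], 1, 2, 26⟩,
    ⟨[0, 1, 2, 4, 3, 5], [1, 0, 2, 4, 3, 5], 0, 1, 364⟩,
    ⟨[0, 2, 1, 4, 3, 5], [2, 0, 1, 4, 3, 5], 0, 1, 195⟩,
    ⟨[0, 1, 2, 4, 3, 5], [0, 2, 1, 4, 3, 5], 1, 2, 169⟩,
    ⟨[1, 2, 0, 4, 3, 5], [2, 1, 0, 4, 3, 5], 0, 1, 221⟩,
    ⟨[1, 0, 2, 4, 3, 5], [1, 2, 0, 4, 3, 5], 1, 2, 195⟩,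
    ⟨[2, 0, 1, 4, 3, 5], [2, 1, 0, 4, 3, 5], 1, 2, 26⟩,
    ⟨[0, 1, 2, 4, 5, 3], [1, 0, 2, 4, 5, 3], 0, 1, 364⟩,
    ⟨[0, 2, 1, 4, 5, 3], [2, 0, 1, 4, 5, 3], 0, 1, 195⟩,
    ⟨[0, 1, 2, 4, 5, 3], [0, 2, 1, 4, 5, 3], 1, 2, 169⟩,
    ⟨[1, 2, 0, 4, 5, 3], [2, 1, 0, 4, 5, 3], 0, 1, 221⟩,
    ⟨[1, 0, 2, 4, 5, 3], [1, 2, 0, 4, 5, 3], 1, 2, 195⟩,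
    ⟨[2, 0, 1, 4, 5, 3], [2, 1, 0, 4, 5, 3], 1, 2, 26⟩,
    ⟨[0, 1, 2, 5, 3, 4], [1, 0, 2, 5, 3, 4], 0, 1, 364⟩,
    ⟨[0, 2, 1, 5, 3, 4], [2, 0, 1, 5, 3, 4], 0, 1, 195⟩,
    ⟨[0, 1, 2, 5, 3, 4], [0, 2, 1, 5, 3, 4], 1, 2, 169⟩,
    ⟨[1, 2, 0, 5, 3, 4], [2, 1, 0, 5, 3, 4], 0, 1, 221⟩,
    ⟨[1, 0, 2, 5, 3, 4], [1, 2, 0, 5, 3, 4], 1, 2, 195⟩,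
    ⟨[2, 0, 1, 5, 3, 4], [2, 1, 0, 5, 3, 4], 1, 2, 26⟩,
    ⟨[0, 1, 2, 5, 4, 3], [1, 0, 2, 5, 4, 3], 0, 1, 364⟩,
    ⟨[0, 2, 1, 5, 4, 3], [2, 0, 1, 5, 4, 3], 0, 1, 195⟩,
    ⟨[0, 1, 2, 5, 4, 3], [0, 2, 1, 5, 4, 3], 1, 2, 169⟩,
    ⟨[1, 2, 0, 5, 4, 3], [2, 1, 0, 5, 4, 3], 0, 1, 221⟩,
    ⟨[1, 0, 2, 5, 4, 3], [1, 2, 0, 5, 4, 3], 1, 2, 195⟩,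
    ⟨[2, 0, 1, 5, 4, 3], [2, 1, 0, 5, 4, 3], 1, 2, 26⟩,
    ⟨[0, 1, 3, 2, 4, 5], [1, 0, 3, 2, 4, 5], 0, 1, 91⟩,
    ⟨[0, 3, 1, 2, 4, 5], [0, 1, 3, 2, 4, 5], 1, 2, 26⟩,
    ⟨[1, 3, 0, 2, 4, 5], [1, 0, 3, 2, 4, 5], 1, 2, 26⟩,
    ⟨[0, 1, 3, 2, 5, 4], [1, 0, 3, 2, 5, 4], 0, 1, 91⟩,
    ⟨[0, 3, 1, 2, 5, 4], [0, 1, 3, 2, 5, 4], 1, 2, 26⟩,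
    ⟨[1, 3, 0, 2, 5, 4], [1, 0, 3, 2, 5, 4], 1, 2, 26⟩,
    ⟨[0, 1, 3, 4, 2, 5], [1, 0, 3, 4, 2, 5], 0, 1, 143⟩,
    ⟨[0, 1, 3, 4, 5, 2], [1, 0, 3, 4, 5, 2], 0, 1, 143⟩,
    ⟨[0, 1, 3, 5, 2, 4], [1, 0, 3, 5, 2, 4], 0, 1, 143⟩,
    ⟨[0, 1, 3, 5, 4, 2], [1, 0, 3, 5, 4, 2], 0, 1, 143⟩,
    ⟨[0, 1, 4, 2, 3, 5], [1, 0, 4, 2, 3, 5], 0, 1, 143⟩,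
    ⟨[0, 1, 4, 2, 5, 3], [1, 0, 4, 2, 5, 3], 0, 1, 143⟩,
    ⟨[0, 1, 4, 3, 2, 5], [1, 0, 4, 3, 2, 5], 0, 1, 143⟩,
    ⟨[0, 1, 4, 3, 5, 2], [1, 0, 4, 3, 5, 2], 0, 1, 143⟩,
    ⟨[0, 1, 4, 5, 2, 3], [1, 0, 4, 5, 2, 3], 0, 1, 143⟩,
    ⟨[0, 1, 4, 5, 3, 2], [1, 0, 4, 5, 3, 2], 0, 1, 143⟩,
    ⟨[0, 1, 5, 2, 3, 4], [1, 0, 5, 2, 3, 4], 0, 1, 143⟩,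
    ⟨[0, 1, 5, 2, 4, 3], [1, 0, 5, 2, 4, 3], 0, 1, 143⟩,
    ⟨[0, 1, 5, 3, 2, 4], [1, 0, 5, 3, 2, 4], 0, 1, 143⟩,
    ⟨[0, 1, 5, 3, 4, 2], [1, 0, 5, 3, 4, 2], 0, 1, 143⟩,
    ⟨[0, 1, 5, 4, 2, 3], [1, 0, 5, 4, 2, 3], 0, 1, 143⟩,
    ⟨[0, 1, 5, 4, 3, 2], [1, 0, 5, 4, 3, 2], 0, 1, 143⟩,
    ⟨[0, 3, 2, 1, 4, 5], [0, 2, 3, 1, 4, 5], 1, 2, 26⟩,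
    ⟨[0, 3, 2, 1, 5, 4], [0, 2, 3, 1, 5, 4], 1, 2, 26⟩]

theorem cR20_ok : check cR20 = true := by decide +kernel

def cR01 : Cert where
  k := 5
  cmp := [(0, 3), (0, 4), (1, 4)]
  free := [(0, 1), (0, 2), (1, 2), (1, 3), (2, 3), (2, 4), (3, 4)]
  comp := [(1, 2, [4]), (2, 3, [0])]
  lam := [(0, 1, 12), (1, 2, 38), (2, 3, 42), (3, 4, 1)]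
  flow := [
    ⟨[0, 1, 2, 4, 3], [0, 1, 2, 3, 4], 3, 4, 1404⟩,
    ⟨[0, 1, 3, 4, 2], [0, 1, 2, 4, 3], 2, 4, 936⟩,
    ⟨[2, 0, 1, 3, 4], [1, 0, 2, 3, 4], 0, 2, 234⟩,
    ⟨[2, 0, 1, 4, 3], [1, 0, 2, 4, 3], 0, 2, 156⟩,
    ⟨[0, 1, 2, 3, 4], [0, 2, 1, 3, 4], 1, 2, 2190⟩,
    ⟨[0, 1, 2, 3, 4], [0, 1, 3, 2, 4], 2, 3, 516⟩,
    ⟨[0, 2, 1, 3, 4], [0, 2, 3, 1, 4], 2, 3, 2010⟩,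
    ⟨[0, 1, 3, 2, 4], [0, 3, 1, 2, 4], 1, 2, 180⟩,
    ⟨[0, 2, 3, 1, 4], [0, 3, 2, 1, 4], 1, 2, 1674⟩,
    ⟨[0, 1, 2, 4, 3], [0, 2, 1, 4, 3], 1, 2, 459⟩,
    ⟨[0, 1, 2, 4, 3], [0, 1, 4, 2, 3], 2, 3, 336⟩,
    ⟨[0, 2, 1, 4, 3], [0, 2, 4, 1, 3], 2, 3, 240⟩,
    ⟨[0, 1, 3, 4, 2], [0, 1, 4, 3, 2], 2, 3, 327⟩,
    ⟨[1, 0, 2, 3, 4], [1, 2, 0, 3, 4], 1, 2, 180⟩,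
    ⟨[1, 0, 2, 3, 4], [1, 0, 3, 2, 4], 2, 3, 888⟩,
    ⟨[1, 0, 3, 2, 4], [1, 3, 0, 2, 4], 1, 2, 84⟩,
    ⟨[1, 0, 2, 4, 3], [1, 2, 0, 4, 3], 1, 2, 219⟩,
    ⟨[1, 0, 2, 4, 3], [1, 0, 4, 2, 3], 2, 3, 732⟩,
    ⟨[1, 0, 3, 4, 2], [1, 0, 4, 3, 2], 2, 3, 795⟩,
    ⟨[2, 0, 1, 3, 4], [2, 1, 0, 3, 4], 1, 2, 600⟩,
    ⟨[2, 0, 1, 4, 3], [2, 1, 0, 4, 3], 1, 2, 639⟩]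

theorem cR01_ok : check cR01 = true := by decide +kernel

def cR11 : Cert where
  k := 6
  cmp := [(0, 3), (0, 4), (0, 5), (1, 4), (1, 5), (2, 5)]
  free := [(0, 1), (0, 2), (1, 2), (1, 3), (2, 3), (2, 4), (3, 4), (3, 5), (4, 5)]
  comp := [(1, 2, [4]), (2, 3, [0, 5])]
  lam := [(1, 2, 102), (2, 3, 48), (3, 4, 5)]
  flow := [
    ⟨[0, 1, 2, 4, 3, 5], [0, 1, 2, 3, 4, 5], 3, 4, 2730⟩,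
    ⟨[0, 1, 2, 4, 5, 3], [0, 1, 2, 3, 5, 4], 3, 5, 390⟩,
    ⟨[0, 1, 2, 5, 3, 4], [0, 1, 2, 3, 5, 4], 3, 4, 3978⟩,
    ⟨[0, 1, 3, 4, 2, 5], [0, 1, 2, 4, 3, 5], 2, 4, 2106⟩,
    ⟨[0, 1, 3, 5, 2, 4], [0, 1, 2, 5, 3, 4], 2, 4, 1989⟩,
    ⟨[1, 0, 2, 3, 4, 5], [0, 1, 2, 3, 4, 5], 0, 1, 1716⟩,
    ⟨[1, 0, 2, 3, 5, 4], [0, 1, 2, 3, 5, 4], 0, 1, 78⟩,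
    ⟨[1, 0, 2, 4, 3, 5], [1, 0, 2, 3, 4, 5], 3, 4, 2418⟩,
    ⟨[1, 0, 2, 4, 5, 3], [1, 0, 2, 3, 5, 4], 3, 5, 780⟩,
    ⟨[1, 0, 2, 5, 3, 4], [0, 1, 2, 5, 3, 4], 0, 1, 1989⟩,
    ⟨[1, 0, 3, 4, 2, 5], [1, 0, 2, 4, 3, 5], 2, 4, 2106⟩,
    ⟨[1, 0, 3, 5, 2, 4], [1, 0, 2, 5, 3, 4], 2, 4, 1989⟩,
    ⟨[2, 0, 1, 3, 4, 5], [1, 0, 2, 3, 4, 5], 0, 2, 390⟩,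
    ⟨[2, 0, 1, 3, 5, 4], [1, 0, 2, 3, 5, 4], 0, 2, 390⟩,
    ⟨[2, 0, 1, 4, 5, 3], [1, 0, 2, 4, 5, 3], 0, 2, 390⟩,
    ⟨[0, 1, 2, 3, 4, 5], [0, 2, 1, 3, 4, 5], 1, 2, 4808⟩,
    ⟨[0, 1, 3, 2, 4, 5], [0, 3, 1, 2, 4, 5], 1, 2, 2106⟩,
    ⟨[0, 1, 2, 3, 4, 5], [0, 1, 3, 2, 4, 5], 2, 3, 1808⟩,
    ⟨[0, 2, 3, 1, 4, 5], [0, 3, 2, 1, 4, 5], 1, 2, 3298⟩,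
    ⟨[0, 2, 1, 3, 4, 5], [0, 2, 3, 1, 4, 5], 2, 3, 3000⟩,
    ⟨[0, 3, 1, 2, 4, 5], [0, 3, 2, 1, 4, 5], 2, 3, 298⟩,
    ⟨[0, 1, 2, 3, 5, 4], [0, 2, 1, 3, 5, 4], 1, 2, 4808⟩,
    ⟨[0, 1, 3, 2, 5, 4], [0, 3, 1, 2, 5, 4], 1, 2, 2106⟩,
    ⟨[0, 1, 2, 3, 5, 4], [0, 1, 3, 2, 5, 4], 2, 3, 1808⟩,
    ⟨[0, 2, 3, 1, 5, 4], [0, 3, 2, 1, 5, 4], 1, 2, 3298⟩,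
    ⟨[0, 2, 1, 3, 5, 4], [0, 2, 3, 1, 5, 4], 2, 3, 3000⟩,
    ⟨[0, 3, 1, 2, 5, 4], [0, 3, 2, 1, 5, 4], 2, 3, 298⟩,
    ⟨[0, 1, 2, 4, 3, 5], [0, 2, 1, 4, 3, 5], 1, 2, 1649⟩,
    ⟨[0, 1, 4, 2, 3, 5], [0, 1, 2, 4, 3, 5], 2, 3, 298⟩,
    ⟨[0, 2, 4, 1, 3, 5], [0, 2, 1, 4, 3, 5], 2, 3, 298⟩,
    ⟨[0, 1, 2, 4, 5, 3], [0, 2, 1, 4, 5, 3], 1, 2, 1780⟩,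
    ⟨[0, 1, 2, 5, 3, 4], [0, 2, 1, 5, 3, 4], 1, 2, 1975⟩,
    ⟨[0, 1, 2, 5, 4, 3], [0, 2, 1, 5, 4, 3], 1, 2, 1975⟩,
    ⟨[0, 1, 4, 3, 2, 5], [0, 1, 3, 4, 2, 5], 2, 3, 103⟩,
    ⟨[1, 0, 2, 3, 4, 5], [1, 2, 0, 3, 4, 5], 1, 2, 1808⟩,
    ⟨[1, 0, 3, 2, 4, 5], [1, 3, 0, 2, 4, 5], 1, 2, 1752⟩,
    ⟨[1, 0, 2, 3, 4, 5], [1, 0, 3, 2, 4, 5], 2, 3, 1454⟩,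
    ⟨[1, 0, 2, 3, 5, 4], [1, 2, 0, 3, 5, 4], 1, 2, 1808⟩,
    ⟨[1, 0, 3, 2, 5, 4], [1, 3, 0, 2, 5, 4], 1, 2, 1752⟩,
    ⟨[1, 0, 2, 3, 5, 4], [1, 0, 3, 2, 5, 4], 2, 3, 1454⟩,
    ⟨[1, 0, 2, 4, 3, 5], [1, 2, 0, 4, 3, 5], 1, 2, 1961⟩,
    ⟨[1, 0, 4, 2, 3, 5], [1, 0, 2, 4, 3, 5], 2, 3, 298⟩,
    ⟨[1, 0, 2, 4, 5, 3], [1, 2, 0, 4, 5, 3], 1, 2, 1780⟩,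
    ⟨[1, 0, 2, 5, 3, 4], [1, 2, 0, 5, 3, 4], 1, 2, 1975⟩,
    ⟨[1, 0, 2, 5, 4, 3], [1, 2, 0, 5, 4, 3], 1, 2, 1975⟩,
    ⟨[1, 0, 4, 3, 2, 5], [1, 0, 3, 4, 2, 5], 2, 3, 103⟩,
    ⟨[2, 0, 1, 3, 4, 5], [2, 1, 0, 3, 4, 5], 1, 2, 1780⟩,
    ⟨[2, 0, 1, 3, 5, 4], [2, 1, 0, 3, 5, 4], 1, 2, 1780⟩,
    ⟨[2, 0, 1, 4, 3, 5], [2, 1, 0, 4, 3, 5], 1, 2, 1975⟩,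
    ⟨[2, 0, 1, 4, 5, 3], [2, 1, 0, 4, 5, 3], 1, 2, 1780⟩,
    ⟨[2, 0, 1, 5, 3, 4], [2, 1, 0, 5, 3, 4], 1, 2, 1975⟩,
    ⟨[2, 0, 1, 5, 4, 3], [2, 1, 0, 5, 4, 3], 1, 2, 1975⟩]

theorem cR11_ok : check cR11 = true := by decide +kernel

def cR3 : Cert where
  k := 5
  cmp := [(0, 4)]
  free := [(0, 1), (0, 2), (0, 3), (1, 2), (1, 3), (1, 4), (2, 3), (2, 4), (3, 4)]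
  comp := [(0, 1, [4])]
  lam := [(0, 1, 18), (1, 2, 3), (2, 3, 4)]
  flow := [
    ⟨[0, 1, 3, 4, 2], [0, 1, 3, 2, 4], 3, 4, 117⟩,
    ⟨[0, 1, 4, 2, 3], [0, 1, 3, 2, 4], 2, 4, 195⟩,
    ⟨[0, 1, 4, 3, 2], [0, 1, 4, 2, 3], 3, 4, 273⟩,
    ⟨[0, 2, 1, 4, 3], [0, 2, 1, 3, 4], 3, 4, 117⟩,
    ⟨[0, 2, 3, 4, 1], [0, 2, 1, 4, 3], 2, 4, 117⟩,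
    ⟨[0, 2, 3, 4, 1], [0, 2, 3, 1, 4], 3, 4, 234⟩,
    ⟨[0, 2, 4, 1, 3], [0, 2, 1, 4, 3], 2, 3, 117⟩,
    ⟨[0, 2, 4, 3, 1], [0, 1, 4, 3, 2], 1, 4, 351⟩,
    ⟨[0, 2, 4, 3, 1], [0, 2, 4, 1, 3], 3, 4, 117⟩,
    ⟨[0, 3, 1, 4, 2], [0, 1, 3, 4, 2], 1, 2, 117⟩,
    ⟨[0, 3, 1, 4, 2], [0, 3, 1, 2, 4], 3, 4, 117⟩,
    ⟨[0, 3, 2, 1, 4], [0, 2, 3, 1, 4], 1, 2, 78⟩,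
    ⟨[0, 3, 2, 4, 1], [0, 3, 2, 1, 4], 3, 4, 234⟩,
    ⟨[0, 3, 4, 1, 2], [0, 3, 2, 1, 4], 2, 4, 273⟩,
    ⟨[0, 3, 4, 2, 1], [0, 2, 4, 3, 1], 1, 3, 273⟩,
    ⟨[0, 4, 1, 2, 3], [0, 1, 4, 2, 3], 1, 2, 234⟩,
    ⟨[0, 4, 1, 3, 2], [0, 1, 4, 3, 2], 1, 2, 234⟩,
    ⟨[0, 4, 2, 1, 3], [0, 2, 4, 1, 3], 1, 2, 312⟩,
    ⟨[0, 4, 2, 3, 1], [0, 4, 2, 1, 3], 3, 4, 234⟩,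
    ⟨[0, 4, 3, 1, 2], [0, 3, 4, 1, 2], 1, 2, 78⟩,
    ⟨[0, 4, 3, 2, 1], [0, 3, 4, 2, 1], 1, 2, 78⟩,
    ⟨[1, 2, 0, 4, 3], [1, 2, 0, 3, 4], 3, 4, 234⟩,
    ⟨[1, 3, 0, 4, 2], [1, 2, 0, 4, 3], 1, 4, 468⟩,
    ⟨[1, 3, 4, 0, 2], [1, 3, 2, 0, 4], 2, 4, 273⟩,
    ⟨[1, 4, 0, 2, 3], [1, 3, 0, 2, 4], 1, 4, 234⟩,
    ⟨[1, 4, 0, 3, 2], [1, 3, 0, 4, 2], 1, 3, 234⟩,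
    ⟨[1, 4, 2, 0, 3], [1, 2, 4, 0, 3], 1, 2, 156⟩,
    ⟨[1, 4, 3, 0, 2], [1, 3, 4, 0, 2], 1, 2, 78⟩,
    ⟨[2, 4, 0, 1, 3], [2, 3, 0, 1, 4], 1, 4, 234⟩,
    ⟨[2, 4, 1, 0, 3], [1, 4, 2, 0, 3], 0, 2, 78⟩,
    ⟨[0, 1, 2, 3, 4], [1, 0, 2, 3, 4], 0, 1, 350⟩,
    ⟨[0, 1, 2, 4, 3], [1, 0, 2, 4, 3], 0, 1, 350⟩,
    ⟨[0, 1, 3, 2, 4], [1, 0, 3, 2, 4], 0, 1, 506⟩,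
    ⟨[0, 1, 3, 4, 2], [1, 0, 3, 4, 2], 0, 1, 350⟩,
    ⟨[0, 1, 4, 2, 3], [1, 0, 4, 2, 3], 0, 1, 506⟩,
    ⟨[0, 1, 4, 3, 2], [1, 0, 4, 3, 2], 0, 1, 506⟩,
    ⟨[0, 2, 1, 3, 4], [2, 0, 1, 3, 4], 0, 1, 350⟩,
    ⟨[0, 2, 1, 4, 3], [2, 0, 1, 4, 3], 0, 1, 350⟩,
    ⟨[0, 2, 3, 1, 4], [2, 0, 3, 1, 4], 0, 1, 506⟩,
    ⟨[0, 2, 4, 1, 3], [2, 0, 4, 1, 3], 0, 1, 506⟩,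
    ⟨[0, 3, 1, 2, 4], [3, 0, 1, 2, 4], 0, 1, 350⟩,
    ⟨[0, 3, 2, 1, 4], [3, 0, 2, 1, 4], 0, 1, 506⟩,
    ⟨[1, 2, 0, 3, 4], [2, 1, 0, 3, 4], 0, 1, 467⟩,
    ⟨[1, 2, 0, 4, 3], [2, 1, 0, 4, 3], 0, 1, 467⟩,
    ⟨[1, 2, 3, 0, 4], [2, 1, 3, 0, 4], 0, 1, 194⟩,
    ⟨[1, 2, 4, 0, 3], [2, 1, 4, 0, 3], 0, 1, 350⟩,
    ⟨[1, 3, 0, 2, 4], [3, 1, 0, 2, 4], 0, 1, 467⟩,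
    ⟨[1, 3, 2, 0, 4], [3, 1, 2, 0, 4], 0, 1, 350⟩,
    ⟨[2, 3, 0, 1, 4], [3, 2, 0, 1, 4], 0, 1, 467⟩,
    ⟨[2, 3, 1, 0, 4], [3, 2, 1, 0, 4], 0, 1, 77⟩]

theorem cR3_ok : check cR3 = true := by decide +kernel

end Pool.Agent.Q109.SO
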