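import Pool.Agent.Q109.SO.Rep
import Pool.Agent.H931R3.Bal12

set_option autoImplicit false
set_option linter.unusedSectionVars false

/-!
A semiorder with seven elements and balance constant `14 / 39`.
-/

namespace Pool.Agent.Q109.SO

open Finset Pool.Agent.H13R3.WB Pool.Agent.H931R3.Bal

/-- Successors: `x < y` iff `r7 x < y` as numbers. -/
def r7 : Fin 7 → ℕ := ![1, 3, 3, 5, 5, 6, 6]

/-- The seven-element semiorder. -/
def S7 : Type := Fin 7

instance : Fintype S7 := inferInstanceAs (Fintype (Fin 7))
instance : DecidableEq S7 := inferInstanceAs (DecidableEq (Fin 7))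

lemma r7_mono : ∀ a b : Fin 7, a ≤ b → r7 a ≤ r7 b := by decide
lemma r7_le : ∀ a : Fin 7, (a : ℕ) ≤ r7 a := by decide

instance : PartialOrder S7 where
  le x y := x = y ∨ r7 x < (y : Fin 7).val
  lt x y := r7 x < (y : Fin 7).val
  le_refl x := Or.inl rfl
  le_trans x y z := by
    rintro (rfl | h1) (rfl | h2)
    · exact Or.inl rfl
    · exact Or.inr h2
    · exact Or.inr h1
    · have := r7_le y
      exact Or.inr (by omega)
  lt_iff_le_not_ge x y := by
    have hx := r7_le x
    have hy := r7_le y
    constructor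
    · intro h
      refine ⟨Or.inr h, ?_⟩
      rintro (rfl | h2)
      · omega
      · omega
    · rintro ⟨rfl | h1, h2⟩
      · exact absurd (Or.inl rfl) h2
      · exact h1
  le_antisymm x y := by
    rintro (rfl | h1) (h2 | h2)
    · rfl
    · rfl
    · exact h2.symm
    · have hx := r7_le x
      have hy := r7_le y
      omega

lemma S7_lt (x y : S7) : x < y ↔ r7 x < (y : Fin 7).val := Iff.rfl

lemma S7_semi : IsSemiorder S7 := by
  constructor
  · intro a b c d h1 h2
    rw [S7_lt] at h1 h2 ⊢
    rw [S7_lt]
    rcases Nat.lt_or_ge (b : Fin 7).val (d : Fin 7).val with h | h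
    · left; omega
    · right; omega
  · intro a b c d h1 h2
    rw [S7_lt] at h1 h2 ⊢
    rw [S7_lt]
    rcases Nat.lt_or_ge (d : Fin 7).val (b : Fin 7).val with h | h
    · right
      have := r7_mono d b (Fin.le_def.2 h.le)
      omega
    · left; omega

lemma S7_dom (a b : S7) (h : (a : Fin 7).val ≤ (b : Fin 7).val) : Dom a b := by
  constructor
  · intro z hz
    rw [S7_lt] at hz ⊢
    omega
  · intro z hz
    rw [S7_lt] at hz ⊢
    have := r7_mono a b (Fin.le_def.2 h)
    omega

lemma S7_card : Fintype.card S7 = 7 := Fintype.card_fin 7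

/-- The elements. -/
def el (i : Fin 7) : S7 := i

lemma S7_not_inD : ¬ InD S7 := by
  intro h
  refine h.few (el 3) (el 1) (el 2) (el 4) ?_ ?_ ?_ ?_ ?_ ?_ ?_ ?_ ?_
  all_goals first
    | (intro h
       rcases h with h | h
       · revert h; decide
       · revert h; decide)
    | decide

/-- The order of the seven numbers is a linear extension. -/
def ok7 (f : Fin 7 ≃ Fin 7) : Bool := decide (∀ i j : Fin 7, r7 i < j.val → f i < f j)

/-- The descents, and the number one, as digits. -/
def dig (f : Fin 7 ≃ Fin 7) : ℕ :=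
  (if f 1 < f 0 then 1 else 0) + (if f 2 < f 1 then 100 else 0) +
  (if f 3 < f 2 then 10000 else 0) + (if f 4 < f 3 then 1000000 else 0) +
  (if f 5 < f 4 then 100000000 else 0) + (if f 6 < f 5 then 10000000000 else 0) + 1000000000000

set_option maxRecDepth 100000 in
theorem dig_sum : ∑ f ∈ univ.filter (fun f : Fin 7 ≃ Fin 7 => ok7 f = true), dig f =
    11 + 14 * 100 + 12 * 10000 + 12 * 1000000 + 14 * 100000000 + 11 * 10000000000 +
    39 * 1000000000000 := by
  decide +kernel

end Pool.Agent.Q109.SO
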