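import Pool.Agent.Q109.SO.Example

set_option autoImplicit false
set_option linter.unusedSectionVars false

/-!
The balance constant of the seven-element semiorder.
-/

namespace Pool.Agent.Q109.SO

open Finset Pool.Agent.H13R3.WB Pool.Agent.H931R3.Bal

/-- The linear extensions as permutations. -/
def F7 : Finset (Fin 7 ≃ Fin 7) := univ.filter (fun f : Fin 7 ≃ Fin 7 => ok7 f = true)

lemma mem_F7 (f : Fin 7 ≃ Fin 7) : f ∈ F7 ↔ ok7 f = true := by
  simp [F7]

lemma mono_iff (f : Fin 7 ≃ Fin 7) : Monotone (fun x : S7 => f x) ↔ ok7 f = true := by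
  unfold ok7
  rw [decide_eq_true_eq]
  constructor
  · intro h i j hij
    have h1 : (el i : S7) < el j := hij
    rcases (h h1.le).lt_or_eq with h2 | h2
    · exact h2
    · have : i = j := f.injective h2
      subst this
      exact absurd h1 (lt_irrefl _)
  · intro h x y hxy
    rcases hxy.lt_or_eq with h1 | h1
    · exact (h x y h1).le
    · rw [h1]

lemma sum_LEn (g : (Fin 7 ≃ Fin 7) → ℝ) : ∑ f : LEn S7 7, g f.1 = ∑ f ∈ F7, g f := by
  classical
  have e1 : ∑ f ∈ F7, g f = ∑ f : {f : Fin 7 ≃ Fin 7 // f ∈ F7}, g f.1 :=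
    (Finset.sum_coe_sort F7 g).symm
  rw [e1]
  let E : LEn S7 7 ≃ {f : Fin 7 ≃ Fin 7 // f ∈ F7} :=
    { toFun := fun f => ⟨f.1, (mem_F7 f.1).2 ((mono_iff f.1).1 f.2)⟩
      invFun := fun f => ⟨f.1, (mono_iff f.1).2 ((mem_F7 f.1).1 f.2)⟩
      left_inv := fun f => rfl
      right_inv := fun f => rfl }
  exact Fintype.sum_equiv E _ _ (fun f => rfl)

lemma card_LEn : (Fintype.card (LEn S7 7) : ℝ) = F7.card := by
  have := sum_LEn (fun _ => 1)
  simp only [sum_const, nsmul_eq_mul, mul_one, card_univ] at this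
  exact this

lemma step100 {a b a' b' : ℕ} (h : a + 100 * b = a' + 100 * b') (ha : a < 100)
    (ha' : a' < 100) : a = a' ∧ b = b' := by omega

lemma digits_aux {c0 c1 c2 c3 c4 c5 c6 : ℕ}
    (h : c0 + 100 * (c1 + 100 * (c2 + 100 * (c3 + 100 * (c4 + 100 * (c5 + 100 * c6))))) =
      11 + 100 * (14 + 100 * (12 + 100 * (12 + 100 * (14 + 100 * (11 + 100 * 39))))))
    (b0 : c0 ≤ c6) (b1 : c1 ≤ c6) (b2 : c2 ≤ c6) (b3 : c3 ≤ c6) (b4 : c4 ≤ c6) (b5 : c5 ≤ c6) :
    c0 = 11 ∧ c1 = 14 ∧ c2 = 12 ∧ c3 = 12 ∧ c4 = 14 ∧ c5 = 11 ∧ c6 = 39 := by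
  have h6 : c6 ≤ 39 := by omega
  obtain ⟨e0, h⟩ := step100 h (by omega) (by norm_num)
  obtain ⟨e1, h⟩ := step100 h (by omega) (by norm_num)
  obtain ⟨e2, h⟩ := step100 h (by omega) (by norm_num)
  obtain ⟨e3, h⟩ := step100 h (by omega) (by norm_num)
  obtain ⟨e4, h⟩ := step100 h (by omega) (by norm_num)
  obtain ⟨e5, h⟩ := step100 h (by omega) (by norm_num)
  exact ⟨e0, e1, e2, e3, e4, e5, h⟩

lemma digits : (F7.filter fun f => f 1 < f 0).card = 11 ∧ (F7.filter fun f => f 2 < f 1).card = 14 ∧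
    (F7.filter fun f => f 3 < f 2).card = 12 ∧ (F7.filter fun f => f 4 < f 3).card = 12 ∧
    (F7.filter fun f => f 5 < f 4).card = 14 ∧ (F7.filter fun f => f 6 < f 5).card = 11 ∧
    F7.card = 39 := by
  have h1 : ∑ f ∈ F7, dig f = (F7.filter fun f => f 1 < f 0).card +
      100 * ((F7.filter fun f => f 2 < f 1).card + 100 * ((F7.filter fun f => f 3 < f 2).card +
      100 * ((F7.filter fun f => f 4 < f 3).card +
      100 * ((F7.filter fun f => f 5 < f 4).card +
      100 * ((F7.filter fun f => f 6 < f 5).card + 100 * F7.card))))) := by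
    unfold dig
    simp only [sum_add_distrib, sum_const, smul_eq_mul, ← sum_filter]
    ring
  have h2 := dig_sum
  change ∑ f ∈ F7, dig f = _ at h2
  rw [h1] at h2
  refine digits_aux (h2.trans (by norm_num)) (card_filter_le F7 _) (card_filter_le F7 _)
    (card_filter_le F7 _) (card_filter_le F7 _) (card_filter_le F7 _) (card_filter_le F7 _)

lemma prob_S7 (x y : Fin 7) : prob S7 (el x) (el y) =
    ((F7.filter fun f => f x < f y).card : ℝ) / 39 := by
  classical
  rw [prob_eq S7_card]
  unfold pr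
  rw [card_LEn, digits.2.2.2.2.2.2]
  have := sum_LEn (fun f => if f x < f y then (1 : ℝ) else 0)
  have h2 : ∑ f : LEn S7 7, (if f.1 (el x) < f.1 (el y) then (1 : ℝ) else 0) =
      ∑ f ∈ F7, if f x < f y then (1 : ℝ) else 0 := this
  rw [h2, sum_boole]
  norm_num

lemma prob_adj (i : Fin 6) : prob S7 (el i.succ) (el i.castSucc) ≤ 14 / 39 := by
  obtain ⟨d0, d1, d2, d3, d4, d5, _⟩ := digits
  rw [prob_S7]
  have key : (F7.filter fun f => f i.succ < f i.castSucc).card ≤ 14 := by
    fin_cases i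
    · exact le_of_eq_of_le d0 (by norm_num)
    · exact le_of_eq_of_le d1 (by norm_num)
    · exact le_of_eq_of_le d2 (by norm_num)
    · exact le_of_eq_of_le d3 (by norm_num)
    · exact le_of_eq_of_le d4 (by norm_num)
    · exact le_of_eq_of_le d5 (by norm_num)
  have : ((F7.filter fun f => f i.succ < f i.castSucc).card : ℝ) ≤ 14 := by exact_mod_cast key
  linarith

/-- Moving `z` down to the position of `y` increases the number of inversions. -/
lemma inv_mono {P : Type} [PartialOrder P] [Fintype P] {x y z : P} (h : Dom y z) (hy : x ≠ y)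
    (hz : x ≠ z) : inv x z ≤ inv x y := by
  classical
  unfold inv
  have h1 : ∀ a b : P, ((LE P).filter fun f => f a < f x).card =
      (((LE P).filter fun f => f a < f x).filter fun f => f b < f x).card +
      (((LE P).filter fun f => f a < f x).filter fun f => ¬ f b < f x).card :=
    fun a b => (card_filter_add_card_filter_not
      (fun f : P ≃ Fin (Fintype.card P) => f b < f x)).symm
  rw [h1 z y, h1 y z]
  refine Nat.add_le_add ?_ ?_
  · apply le_of_eq
    congr 1
    ext f
    simp only [mem_filter]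
    tauto
  · refine card_le_card_of_injOn (sw y z) ?_ (fun a _ b _ h => sw_inj _ _ h)
    intro f hf
    rw [mem_coe, mem_filter, mem_filter] at hf ⊢
    obtain ⟨⟨h2, h3⟩, h4⟩ := hf
    have h5 : f z < f y := by
      rcases lt_trichotomy (f y) (f x) with h6 | h6 | h6
      · exact absurd h6 h4
      · exact absurd (f.injective h6).symm hy
      · exact h3.trans h6
    rw [sw_left, sw_right, sw_other f hy hz]
    exact ⟨⟨sw_mem_down h h2 h5, h3⟩, h4⟩

lemma prob_le_of_lt (x y : Fin 7) (h : x < y) : prob S7 (el y) (el x) ≤ 14 / 39 := by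
  have hx : x.val < 6 := by
    have := y.2
    have h1 : x.val < y.val := h
    omega
  have h1 := prob_adj ⟨x.val, hx⟩
  have e1 : (⟨x.val, hx⟩ : Fin 6).castSucc = x := Fin.ext rfl
  rw [e1] at h1
  refine le_trans ?_ h1
  rw [prob_eq_inv, prob_eq_inv]
  have hpos : (0 : ℝ) < (LE S7).card := by exact_mod_cast LE_pos
  rw [div_le_div_iff_of_pos_right hpos]
  have hne1 : el x ≠ el (⟨x.val, hx⟩ : Fin 6).succ := by
    intro h2
    have : x = (⟨x.val, hx⟩ : Fin 6).succ := h2
    have := congrArg Fin.val this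
    simp at this
  have hne2 : el x ≠ el y := by
    intro h2
    exact absurd h2 h.ne
  have h3 := inv_mono (S7_dom (el (⟨x.val, hx⟩ : Fin 6).succ) (el y) (by
    show x.val + 1 ≤ y.val
    exact h)) hne1 hne2
  exact_mod_cast h3

lemma prob_self_zero (x : S7) : prob S7 x x = 0 := by
  have h := prob_S7 x x
  have h2 : prob S7 x x = ((F7.filter fun f => f x < f x).card : ℝ) / 39 := h
  rw [h2]
  simp

lemma balance_S7_le : balance S7 ≤ 14 / 39 := by
  have : Nonempty (S7 × S7) := ⟨(el 0, el 0)⟩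
  unfold balance
  apply ciSup_le
  rintro ⟨x, y⟩
  show min (prob S7 x y) (prob S7 y x) ≤ 14 / 39
  rcases lt_trichotomy (α := Fin 7) x y with h | h | h
  · exact (min_le_right _ _).trans (prob_le_of_lt x y h)
  · have h' : x = y := h
    subst h'
    rw [prob_self_zero]
    norm_num
  · exact (min_le_left _ _).trans (prob_le_of_lt y x h)

end Pool.Agent.Q109.SO
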