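import Pool.Agent.Q109.SO.Walk
import Pool.Agent.H931R3.Bal11

set_option autoImplicit false
set_option linter.unusedSectionVars false

/-!
Semiorders outside the class `𝒟`.
-/

namespace Pool.Agent.Q109.SO

open Finset Pool.Agent.H13R3.WB Pool.Agent.H931R3.Bal

lemma IsSemiorder.subtype {P : Type} [PartialOrder P] (h : IsSemiorder P) (a : P → Prop) :
    IsSemiorder {x // a x} :=
  ⟨fun x y z w h1 h2 => h.1 x y z w h1 h2, fun x y z w h1 h2 => h.2 x y z w h1 h2⟩

/-- A poset in which all elements with property `a` are below all others is a direct sum. -/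
noncomputable def lexIso {P : Type} [PartialOrder P] (a : P → Prop)
    (h : ∀ x y, a x → ¬ a y → x < y) : P ≃o ({x // a x} ⊕ₗ {x // ¬ a x}) := by
  classical
  refine OrderIso.symm
    { toEquiv := (ofLex (α := {x // a x} ⊕ {x // ¬ a x})).trans (Equiv.sumCompl a)
      map_rel_iff' := ?_ }
  intro x y
  induction x using Lex.rec with | _ x => ?_
  induction y using Lex.rec with | _ y => ?_
  rcases x with x | x <;> rcases y with y | y
  · simp [Sum.Lex.toLex_le_toLex]
  · simp only [Equiv.trans_apply, ofLex_toLex, Equiv.sumCompl_apply_inl,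
      Equiv.sumCompl_apply_inr, Sum.Lex.toLex_le_toLex, Sum.Lex.sep, iff_true]
    exact (h x y x.2 y.2).le
  · simp only [Equiv.trans_apply, ofLex_toLex, Equiv.sumCompl_apply_inl,
      Equiv.sumCompl_apply_inr, Sum.Lex.toLex_le_toLex, Sum.lex_inr_inl, iff_false]
    exact (h y x y.2 x.2).not_ge
  · simp [Sum.Lex.toLex_le_toLex]

lemma inD_of_card_one {P : Type} [Fintype P] [PartialOrder P] (h : Fintype.card P = 1) :
    InD P := by
  obtain ⟨x, hx⟩ := Fintype.card_eq_one_iff.1 h
  have E : P ≃ Fin 1 := ⟨fun _ => 0, fun _ => x, fun y => (hx y).symm,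
    fun y => Subsingleton.elim _ _⟩
  refine InD.one P ⟨⟨E, ?_⟩⟩
  intro a b
  rw [hx a, hx b]
  simp

lemma inD_of_three {P : Type} [PartialOrder P] {n : ℕ} {e : ℕ → P} {r l : ℕ → ℕ}
    (R : Rep P n e r l) (hn : n = 3) (h0 : r 0 = 1) (h1 : r 1 = 2) : InD P := by
  subst hn
  have h2 : r 2 = 2 := by
    have a1 := R.le_r 2 (by omega)
    have a2 := R.r_lt 2 (by omega)
    omega
  let idx : Fin 2 ⊕ Fin 1 → ℕ := Sum.elim (fun i => if i = 0 then 0 else 2) (fun _ => 1)
  have hidx : ∀ z, idx z < 3 := by
    rintro (z | z)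
    · fin_cases z <;> simp [idx]
    · simp [idx]
  have hinj : Function.Injective (fun z => e (idx z)) := by
    intro a b hab
    have := R.inj _ (hidx a) _ (hidx b) hab
    revert this
    rcases a with a | a <;> rcases b with b | b <;> fin_cases a <;> fin_cases b <;> simp [idx]
  have hsurj : Function.Surjective (fun z => e (idx z)) := by
    intro x
    obtain ⟨i, hi, rfl⟩ := R.surj x
    have : i = 0 ∨ i = 1 ∨ i = 2 := by omega
    rcases this with rfl | rfl | rfl
    · exact ⟨Sum.inl 0, by simp [idx]⟩
    · exact ⟨Sum.inr 0, by simp [idx]⟩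
    · exact ⟨Sum.inl 1, by simp [idx]⟩
  have hlt : ∀ a b : Fin 2 ⊕ Fin 1, e (idx a) < e (idx b) ↔ a < b := by
    intro a b
    rw [R.lt_iff _ (hidx a) _ (hidx b)]
    rcases a with a | a <;> rcases b with b | b <;> fin_cases a <;> fin_cases b <;>
      simp [idx, h0, h1, h2]
  refine InD.three P ⟨OrderIso.symm ⟨Equiv.ofBijective _ ⟨hinj, hsurj⟩, ?_⟩⟩
  intro a b
  show e (idx a) ≤ e (idx b) ↔ a ≤ b
  rw [le_iff_lt_or_eq, le_iff_lt_or_eq, hlt]
  constructor
  · rintro (h | h)
    · exact Or.inl h
    · exact Or.inr (hinj h)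
  · rintro (h | h)
    · exact Or.inl h
    · rw [h]; exact Or.inr rfl

/-- **The gap for semiorders.** -/
theorem semi_gap : ∀ (P : Type) [Fintype P] [PartialOrder P] [Nonempty P], IsSemiorder P →
    InD P ∨ 14 / 39 ≤ balance P := by
  have key : ∀ (N : ℕ) (P : Type) [Fintype P] [PartialOrder P] [Nonempty P],
      Fintype.card P = N → IsSemiorder P → InD P ∨ 14 / 39 ≤ balance P := by
    intro N
    induction N using Nat.strong_induction_on with
    | _ N ih =>
      intro P _ _ _ hN hS
      obtain ⟨e, r, l, R⟩ := exists_rep hS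
      rw [hN] at R
      have hpos : 0 < Fintype.card P := Fintype.card_pos
      by_cases hirr : ∀ i, i + 1 < N → i < r i
      · by_cases h1 : N = 1
        · exact Or.inl (inD_of_card_one (hN.trans h1))
        by_cases hE : N = 3 ∧ r 0 = 1 ∧ r 1 = 2
        · exact Or.inl (inD_of_three R hE.1 hE.2.1 hE.2.2)
        · exact Or.inr (irreducible_case R (by omega) hirr hE)
      · push Not at hirr
        obtain ⟨i, hi, hri⟩ := hirr
        have hri' : r i = i := le_antisymm hri (R.le_r i (by omega))
        let a : P → Prop := fun x => ∃ j ≤ i, e j = x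
        have hab : ∀ x y, a x → ¬ a y → x < y := by
          rintro _ y ⟨j, hj, rfl⟩ hy
          obtain ⟨k, hk, rfl⟩ := R.surj y
          have hki : i < k := by
            by_contra hcon
            exact hy ⟨k, by omega, rfl⟩
          rw [R.lt_iff j (by omega) k hk]
          have := R.r_mono hj (by omega)
          omega
        let ε := lexIso a hab
        have nA : Nonempty {x // a x} := ⟨⟨e i, i, le_rfl, rfl⟩⟩
        have nB : Nonempty {x // ¬ a x} := by
          refine ⟨⟨e (i + 1), ?_⟩⟩
          rintro ⟨j, hj, hje⟩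
          have := R.inj j (by omega) (i + 1) hi hje
          omega
        have := Fintype.ofFinite {x // a x}
        have := Fintype.ofFinite {x // ¬ a x}
        have hcard : Fintype.card P = Fintype.card {x // a x} + Fintype.card {x // ¬ a x} := by
          rw [Fintype.card_congr ε.toEquiv]
          exact card_lexS
        have pA : 0 < Fintype.card {x // a x} := Fintype.card_pos
        have pB : 0 < Fintype.card {x // ¬ a x} := Fintype.card_pos
        have g1 := ih _ (by omega) {x // a x} rfl (hS.subtype a)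
        have g2 := ih _ (by omega) {x // ¬ a x} rfl (hS.subtype _)
        have hne : Nonempty ({x // a x} ⊕ₗ {x // ¬ a x}) := ⟨ε nA.some.1⟩
        rcases gap_lex g1 g2 with h3 | h3
        · exact Or.inl (InD.iso h3 ε.symm)
        · exact Or.inr (h3.trans (balance_iso ε.symm))
  intro P _ _ _ hS
  exact key _ P rfl hS

end Pool.Agent.Q109.SO
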