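import Pool.Agent.Q109.SO.Sound

set_option autoImplicit false
set_option linter.unusedSectionVars false

/-!
Semiorders and their description by two monotone functions.
-/

namespace Pool.Agent.Q109.SO

open Finset Pool.Agent.H13R3.WB Pool.Agent.H931R3.Bal

/-- Semiorders: no four elements form two incomparable chains `a < b`, `c < d`, and no element is
incomparable to all three elements of a chain `a < b < c`. -/
def IsSemiorder (P : Type) [PartialOrder P] : Prop :=
  (∀ a b c d : P, a < b → c < d → a < d ∨ c < b) ∧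
    ∀ a b c d : P, a < b → b < c → a < d ∨ d < c

structure Rep (P : Type) [PartialOrder P] (n : ℕ) (e : ℕ → P) (r l : ℕ → ℕ) : Prop where
  inj : ∀ i < n, ∀ j < n, e i = e j → i = j
  surj : ∀ x, ∃ i < n, e i = x
  lt_iff : ∀ i < n, ∀ j < n, (e i < e j ↔ r i < j)
  gal : ∀ i < n, ∀ j < n, (r i < j ↔ i < l j)
  le_r : ∀ i < n, i ≤ r i
  r_lt : ∀ i < n, r i < n

variable {P : Type} [PartialOrder P]

lemma IsSemiorder.total (h : IsSemiorder P) (x y : P) : Dom x y ∨ Dom y x := by
  by_contra hcon
  unfold Dom at hcon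
  push Not at hcon
  obtain ⟨h1, h2⟩ := hcon
  by_cases c1 : ∀ z, z < x → z < y
  · obtain ⟨z, hz1, hz2⟩ := h1 c1
    by_cases c2 : ∀ z, z < y → z < x
    · obtain ⟨z', hz1', hz2'⟩ := h2 c2
      rcases h.1 y z x z' hz1 hz1' with h3 | h3
      · exact hz2' h3
      · exact hz2 h3
    · push Not at c2
      obtain ⟨z', hz1', hz2'⟩ := c2
      rcases h.2 z' y z x hz1' hz1 with h3 | h3
      · exact hz2' h3
      · exact hz2 h3
  · push Not at c1
    obtain ⟨z, hz1, hz2⟩ := c1
    by_cases c2 : ∀ z, z < y → z < x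
    · obtain ⟨z', hz1', hz2'⟩ := h2 c2
      rcases h.2 z x z' y hz1 hz1' with h3 | h3
      · exact hz2 h3
      · exact hz2' h3
    · push Not at c2
      obtain ⟨z', hz1', hz2'⟩ := c2
      rcases h.1 z x z' y hz1 hz1' with h3 | h3
      · exact hz2 h3
      · exact hz2' h3

lemma seg {n : ℕ} {p : ℕ → Prop} [DecidablePred p] (hp : ∀ i j, i ≤ j → j < n → p j → p i) :
    ∀ j < n, (p j ↔ j < ((range n).filter p).card) := by
  intro j hj
  constructor
  · intro h
    have : range (j + 1) ⊆ (range n).filter p := by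
      intro i hi
      rw [mem_range] at hi
      rw [mem_filter, mem_range]
      exact ⟨by omega, hp i j (by omega) hj h⟩
    have := card_le_card this
    rw [card_range] at this
    omega
  · intro h
    by_contra hcon
    have : (range n).filter p ⊆ range j := by
      intro i hi
      rw [mem_filter, mem_range] at hi
      rw [mem_range]
      by_contra h1
      exact hcon (hp j i (by omega) hi.1 hi.2)
    have := card_le_card this
    rw [card_range] at this
    omega

theorem exists_rep [Fintype P] [Nonempty P] (h : IsSemiorder P) :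
    ∃ (e : ℕ → P) (r l : ℕ → ℕ), Rep P (Fintype.card P) e r l := by
  classical
  set n := Fintype.card P with hn
  have hn0 : 0 < n := Fintype.card_pos
  let key : P → ℤ := fun x => ((univ.filter fun z => z < x).card : ℤ) -
    (univ.filter fun z => x < z).card
  have hkey : ∀ x y, key x ≤ key y → Dom x y := by
    intro x y hk
    rcases h.total x y with h1 | h1
    · exact h1
    · have s1 : (univ.filter fun z => z < y) ⊆ univ.filter fun z => z < x := by
        intro z hz
        rw [mem_filter] at hz ⊢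
        exact ⟨mem_univ _, h1.1 z hz.2⟩
      have s2 : (univ.filter fun z => x < z) ⊆ univ.filter fun z => y < z := by
        intro z hz
        rw [mem_filter] at hz ⊢
        exact ⟨mem_univ _, h1.2 z hz.2⟩
      have c1 := card_le_card s1
      have c2 := card_le_card s2
      simp only [key] at hk
      have e1 := eq_of_subset_of_card_le s1 (by omega)
      have e2 := eq_of_subset_of_card_le s2 (by omega)
      refine ⟨fun z hz => ?_, fun z hz => ?_⟩
      · have : z ∈ univ.filter fun z => z < x := by simp [hz]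
        rw [← e1] at this
        simpa using this
      · have : z ∈ univ.filter fun z => y < z := by simp [hz]
        rw [← e2] at this
        simpa using this
  let σ0 : Fin n ≃ P := (Fintype.equivFin P).symm
  let τ := Tuple.sort (key ∘ σ0)
  have hτ : Monotone ((key ∘ σ0) ∘ τ) := Tuple.monotone_sort _
  let e : ℕ → P := fun i => if hi : i < n then σ0 (τ ⟨i, hi⟩) else σ0 (τ ⟨0, hn0⟩)
  have he : ∀ i (hi : i < n), e i = σ0 (τ ⟨i, hi⟩) := fun i hi => dif_pos hi
  have hdom : ∀ i j, i ≤ j → j < n → Dom (e i) (e j) := by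
    intro i j hij hj
    apply hkey
    rw [he i (by omega), he j hj]
    exact hτ (show (⟨i, by omega⟩ : Fin n) ≤ ⟨j, hj⟩ from hij)
  have segr : ∀ i, ∀ a b, a ≤ b → b < n → ¬ e i < e b → ¬ e i < e a := by
    intro i a b hab hb h1 h2
    exact h1 ((hdom a b hab hb).1 _ h2)
  have segl : ∀ j, ∀ a b, a ≤ b → b < n → e b < e j → e a < e j := by
    intro j a b hab hb h1
    exact (hdom a b hab hb).2 _ h1
  let c : ℕ → ℕ := fun i => ((range n).filter fun j => ¬ e i < e j).card
  let l : ℕ → ℕ := fun j => ((range n).filter fun i => e i < e j).card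
  have hc : ∀ i j, j < n → (¬ e i < e j ↔ j < c i) := fun i j hj => seg (segr i) j hj
  have hl : ∀ j i, i < n → (e i < e j ↔ i < l j) := fun j i hi => seg (segl j) i hi
  have hci : ∀ i < n, i < c i := fun i hi => (hc i i hi).1 (lt_irrefl _)
  have hcn : ∀ i, c i ≤ n := fun i => by
    have := card_filter_le (range n) (fun j => ¬ e i < e j)
    rw [card_range] at this
    exact this
  refine ⟨e, fun i => c i - 1, l, ?_, ?_, ?_, ?_, ?_, ?_⟩
  · intro i hi j hj hij
    rw [he i hi, he j hj] at hij
    have := τ.injective (σ0.injective hij)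
    exact congrArg Fin.val this
  · intro x
    refine ⟨(τ.symm (σ0.symm x)).val, (τ.symm (σ0.symm x)).2, ?_⟩
    rw [he _ (τ.symm (σ0.symm x)).2]
    simp
  · intro i hi j hj
    have h1 := hc i j hj
    have h2 := hci i hi
    constructor
    · intro h3
      have : ¬ j < c i := fun h4 => (h1.2 h4) h3
      show c i - 1 < j
      omega
    · intro h3
      change c i - 1 < j at h3
      by_contra h4
      have := h1.1 h4
      omega
  · intro i hi j hj
    have h1 := hc i j hj
    have h2 := hci i hi
    rw [← hl j i hi]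
    constructor
    · intro h3
      change c i - 1 < j at h3
      by_contra h4
      have := h1.1 h4
      omega
    · intro h3
      have : ¬ j < c i := fun h4 => (h1.2 h4) h3
      show c i - 1 < j
      omega
  · intro i hi
    have := hci i hi
    show i ≤ c i - 1
    omega
  · intro i hi
    have := hci i hi
    have := hcn i
    show c i - 1 < n
    omega

namespace Rep

variable {n : ℕ} {e : ℕ → P} {r l : ℕ → ℕ}

lemma l_le (R : Rep P n e r l) {j : ℕ} (hj : j < n) : l j ≤ j := by
  have h1 := R.gal j hj j hj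
  have h2 := R.le_r j hj
  by_contra h3
  have := h1.2 (by omega)
  omega

lemma r_mono (R : Rep P n e r l) {i j : ℕ} (hij : i ≤ j) (hj : j < n) : r i ≤ r j := by
  by_contra hcon
  have h1 := R.r_lt i (by omega)
  have h2 := (R.gal j hj (r i) h1).1 (by omega)
  have h3 := (R.gal i (by omega) (r i) h1).2 (by omega)
  omega

lemma l_mono (R : Rep P n e r l) {i j : ℕ} (hij : i ≤ j) (hj : j < n) : l i ≤ l j := by
  by_contra hcon
  have h0 := R.l_le (show i < n by omega)
  have h1 := (R.gal (l j) (by omega) i (by omega)).2 (by omega)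
  have h2 := (R.gal (l j) (by omega) j hj).1 (by omega)
  omega

lemma dom (R : Rep P n e r l) {i j : ℕ} (hij : i ≤ j) (hj : j < n) : Dom (e i) (e j) := by
  constructor
  · intro z hz
    obtain ⟨k, hk, rfl⟩ := R.surj z
    rw [R.lt_iff k hk i (by omega)] at hz
    rw [R.lt_iff k hk j hj]
    omega
  · intro z hz
    obtain ⟨k, hk, rfl⟩ := R.surj z
    rw [R.lt_iff j hj k hk] at hz
    rw [R.lt_iff i (by omega) k hk]
    have := R.r_mono hij hj
    omega

/-- Static conditions on a certificate. -/
def okStatic (C : Cert) : Bool :=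
  C.cmp.all (fun p => decide (p.1 < C.k) && decide (p.2 < C.k)) &&
  (C.free.all (fun p => decide (p.1 < p.2) && decide (p.2 < C.k)) &&
  C.comp.all (fun c => decide (c.1 < c.2.1) && (decide (c.2.1 < C.k) &&
    c.2.2.all fun t => decide (t < C.k))))

theorem mkWin (R : Rep P n e r l) (C : Cert) (hs : okStatic C = true) (a : ℕ → ℕ)
    (h1 : ∀ i < C.k, a i < n) (h2 : ∀ i < C.k, ∀ j < C.k, i < j → a i < a j)
    (h3 : ∀ p ∈ C.cmp, r (a p.1) < a p.2)
    (h4 : ∀ c ∈ C.comp, a c.2.1 ≤ r (a c.1) ∧
      ∀ z, ((r (a c.1) < z ∧ z ≤ r (a c.2.1)) ∨ (z < l (a c.2.1) ∧ l (a c.1) ≤ z)) →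
        ∃ t ∈ c.2.2, z = a t) :
    IsWin C (fun i => e (a i)) := by
  unfold okStatic at hs
  simp only [Bool.and_eq_true, List.all_eq_true, decide_eq_true_eq] at hs
  obtain ⟨s1, s2, s3⟩ := hs
  refine ⟨?_, ?_, ?_, ?_⟩
  · intro i hi j hj hij
    have := R.inj _ (h1 i hi) _ (h1 j hj) hij
    rcases lt_trichotomy i j with h | h | h
    · have := h2 i hi j hj h; omega
    · exact h
    · have := h2 j hj i hi h; omega
  · intro p hp
    refine ⟨(s1 p hp).1, (s1 p hp).2, ?_⟩
    exact (R.lt_iff _ (h1 _ (s1 p hp).1) _ (h1 _ (s1 p hp).2)).2 (h3 p hp)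
  · intro p hp
    have := s2 p hp
    refine ⟨by omega, this.2, by omega, ?_⟩
    exact R.dom (h2 _ (by omega) _ this.2 this.1).le (h1 _ this.2)
  · intro c hc
    obtain ⟨t1, t2, t3⟩ := s3 c hc
    obtain ⟨g1, g2⟩ := h4 c hc
    have b1 := h1 _ (show c.1 < C.k by omega)
    have b2 := h1 _ t2
    refine ⟨R.dom (h2 _ (by omega) _ t2 t1).le b2, ?_, ?_⟩
    · show ¬ e (a c.1) < e (a c.2.1)
      rw [R.lt_iff _ b1 _ b2]
      omega
    · intro z hz
      obtain ⟨k, hk, rfl⟩ := R.surj z
      have hz' : (r (a c.1) < k ∧ k ≤ r (a c.2.1)) ∨ (k < l (a c.2.1) ∧ l (a c.1) ≤ k) := by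
        have f1 := R.lt_iff _ b1 k hk
        have f2 := R.lt_iff _ b2 k hk
        have f3 := R.lt_iff k hk _ b1
        have f4 := R.lt_iff k hk _ b2
        have f5 := R.gal k hk _ b1
        have f6 := R.gal k hk _ b2
        rw [f1, f2, f3, f4] at hz
        omega
      obtain ⟨t, ht, rfl⟩ := g2 k hz'
      exact ⟨t, ht, t3 t ht, rfl⟩

end Rep

end Pool.Agent.Q109.SO
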