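import Pool.Agent.Q109.SO.Cert

set_option autoImplicit false
set_option linter.unusedSectionVars false

/-!
Soundness of the certificates.
-/

namespace Pool.Agent.Q109.SO

open Finset Pool.Agent.H13R3.WB Pool.Agent.H931R3.Bal

variable {P : Type} [PartialOrder P] [Fintype P]

lemma Dom.not_lt {x y : P} (h : Dom x y) : ¬ y < x := fun h1 => lt_irrefl y (h.1 y h1)

/-- Moving the lower element down is always possible. -/
lemma sw_mem_down {x y : P} (h : Dom x y) {f : P ≃ Fin (Fintype.card P)} (hf : f ∈ LE P)
    (hyx : f y < f x) : sw x y f ∈ LE P := by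
  rw [mem_LE] at hf ⊢
  have hne : x ≠ y := fun h1 => by rw [h1] at hyx; exact lt_irrefl _ hyx
  apply mono_of_lt
  intro a b hab
  by_cases ax : a = x
  · subst ax
    rw [sw_left]
    by_cases bx : b = a
    · exact absurd (bx ▸ hab) (lt_irrefl _)
    by_cases by' : b = y
    · subst by'
      rw [sw_right]; exact hyx
    · rw [sw_other f bx by']
      exact hyx.trans (lt_of_mono hf hab)
  · by_cases ay : a = y
    · subst ay
      rw [sw_right]
      by_cases bx : b = x
      · subst bx
        exact absurd hab h.not_lt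
      by_cases by' : b = a
      · exact absurd (by' ▸ hab) (lt_irrefl _)
      · rw [sw_other f bx by']
        exact lt_of_mono hf (h.2 b hab)
    · rw [sw_other f ax ay]
      by_cases bx : b = x
      · subst bx
        rw [sw_left]
        exact lt_of_mono hf (h.1 a hab)
      by_cases by' : b = y
      · subst by'
        rw [sw_right]
        exact (lt_of_mono hf hab).trans hyx
      · rw [sw_other f bx by']
        exact lt_of_mono hf hab

/-- Moving the lower element up is possible if no separating element is in between. -/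
lemma sw_mem_up {x y : P} (h : Dom x y) (hxy : ¬ x < y) {f : P ≃ Fin (Fintype.card P)}
    (hf : f ∈ LE P) (hlt : f x < f y)
    (hsep : ∀ z, (x < z ∧ ¬ y < z) ∨ (z < y ∧ ¬ z < x) → ¬ (f x < f z ∧ f z < f y)) :
    sw x y f ∈ LE P := by
  rw [mem_LE] at hf ⊢
  have hne : x ≠ y := fun h1 => by rw [h1] at hlt; exact lt_irrefl _ hlt
  have hyx := h.not_lt
  apply mono_of_lt
  intro a b hab
  by_cases ax : a = x
  · subst ax
    rw [sw_left]
    by_cases bx : b = a
    · exact absurd (bx ▸ hab) (lt_irrefl _)
    by_cases by' : b = y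
    · subst by'
      exact absurd hab hxy
    · rw [sw_other f bx by']
      by_cases hyb : y < b
      · exact lt_of_mono hf hyb
      · have h1 := hsep b (Or.inl ⟨hab, hyb⟩)
        have h2 := lt_of_mono hf hab
        by_contra hcon
        rcases (not_lt.1 hcon).lt_or_eq with h3 | h3
        · exact h1 ⟨h2, h3⟩
        · exact by' (f.injective h3)
  · by_cases ay : a = y
    · subst ay
      rw [sw_right]
      by_cases bx : b = x
      · subst bx
        exact absurd hab hyx
      by_cases by' : b = a
      · exact absurd (by' ▸ hab) (lt_irrefl _)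
      · rw [sw_other f bx by']
        exact hlt.trans (lt_of_mono hf hab)
    · rw [sw_other f ax ay]
      by_cases bx : b = x
      · subst bx
        rw [sw_left]
        exact (lt_of_mono hf hab).trans hlt
      by_cases by' : b = y
      · subst by'
        rw [sw_right]
        by_cases hax : a < x
        · exact lt_of_mono hf hax
        · have h1 := hsep a (Or.inr ⟨hab, hax⟩)
          have h2 := lt_of_mono hf hab
          by_contra hcon
          rcases (not_lt.1 hcon).lt_or_eq with h3 | h3
          · exact h1 ⟨h3, h2⟩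
          · exact ax (f.injective h3.symm)
      · rw [sw_other f bx by']
        exact lt_of_mono hf hab

/-- The number of linear extensions with a given order of the window. -/
noncomputable def NN (k : ℕ) (w : ℕ → P) (s : List ℕ) : ℕ :=
  ((LE P).filter fun f => pat k w f = s).card

lemma NN_le {C : Cert} {w : ℕ → P} (hw : IsWin C w) {e : Fl} (he : okFlow C e = true) :
    NN C.k w e.s ≤ NN C.k w e.t := by
  classical
  unfold okFlow at he
  simp only [Bool.and_eq_true, decide_eq_true_eq, Bool.or_eq_true, List.any_eq_true] at he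
  obtain ⟨hu, hv, huv, ht, hrest⟩ := he
  unfold NN
  refine card_le_card_of_injOn (sw (w e.u) (w e.v)) ?_ (fun a _ b _ h => sw_inj _ _ h)
  intro f hf
  rw [mem_coe, mem_filter] at hf ⊢
  obtain ⟨hfL, hfs⟩ := hf
  refine ⟨?_, by rw [pat_sw w hw.inj f hu hv huv, hfs, ht]⟩
  rcases hrest with ⟨h1, h2⟩ | ⟨c, hc, hc1, hc2, hc3, hc4⟩
  · rw [List.contains_iff_mem] at h1
    obtain ⟨_, _, _, hD⟩ := hw.free _ h1
    rw [← hfs, pat_lt w f hv hu] at h2
    exact sw_mem_down hD hfL h2
  · obtain ⟨hD, hnl, hz⟩ := hw.comp c hc
    rw [hc1, hc2] at hD hnl hz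
    rw [← hfs, pat_lt w f hu hv] at hc3
    refine sw_mem_up hD hnl hfL hc3 ?_
    intro z hzs
    obtain ⟨t, ht1, ht2, rfl⟩ := hz z hzs
    rw [List.all_eq_true] at hc4
    have h5 := hc4 t ht1
    simp only [Bool.not_eq_true', Bool.and_eq_false_iff, decide_eq_false_iff_not] at h5
    rw [← hfs, pat_lt w f hu ht2, pat_lt w f ht2 hv] at h5
    tauto


lemma sum_flow {α ι : Type} (A : Finset α) (p : α → List ℕ) (L : List ι) (g : ι → List ℕ)
    (y : ι → ℕ) : ∑ f ∈ A, (L.map fun e => if g e = p f then y e else 0).sum =
      (L.map fun e => y e * (A.filter fun f => p f = g e).card).sum := by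
  classical
  induction L with
  | nil => simp
  | cons a L ih =>
    simp only [List.map_cons, List.sum_cons]
    rw [sum_add_distrib, ih]
    congr 1
    rw [← sum_filter, sum_const, smul_eq_mul, mul_comm]
    congr 2
    ext f
    simp [eq_comm]

lemma sum_lam {α ι : Type} (A : Finset α) (L : List ι) (q : ι → α → Prop)
    [∀ i a, Decidable (q i a)]
    (y : ι → ℕ) : ∑ f ∈ A, (L.map fun e => if q e f then y e else 0).sum =
      (L.map fun e => y e * (A.filter fun f => q e f).card).sum := by
  classical
  induction L with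
  | nil => simp
  | cons a L ih =>
    simp only [List.map_cons, List.sum_cons]
    rw [sum_add_distrib, ih]
    congr 1
    rw [← sum_filter, sum_const, smul_eq_mul, mul_comm]

theorem sound {C : Cert} (hC : check C = true) {w : ℕ → P} (hw : IsWin C w) :
    ∃ p ∈ C.lam, 14 * (LE P).card ≤ 39 * inv (w p.1) (w p.2.1) := by
  classical
  unfold check at hC
  simp only [Bool.and_eq_true, decide_eq_true_eq, List.all_eq_true] at hC
  obtain ⟨hLam, hlam, hflow, hchk⟩ := hC
  have hcons : ∀ f ∈ LE P, cons C (pat C.k w f) = true := by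
    intro f hf
    unfold cons
    rw [List.all_eq_true]
    intro p hp
    obtain ⟨h1, h2, h3⟩ := hw.cmp p hp
    rw [decide_eq_true_eq, pat_lt w f h1 h2]
    exact lt_of_mono ((mem_LE f).1 hf) h3
  have hpt : ∀ f ∈ LE P, inf' C (pat C.k w f) + 14 * Lam C ≤
      39 * coef C (pat C.k w f) + outf C (pat C.k w f) := by
    intro f hf
    have h1 := hchk _ (pat_mem w hw.inj f)
    unfold chkS at h1
    rw [hcons f hf] at h1
    simpa using h1
  have hsum := sum_le_sum hpt
  rw [sum_add_distrib, sum_add_distrib, sum_const, smul_eq_mul, ← mul_sum] at hsum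
  have hin : ∑ f ∈ LE P, inf' C (pat C.k w f) =
      (C.flow.map fun e => e.y * NN C.k w e.t).sum := by
    unfold inf' NN
    exact sum_flow (LE P) (pat C.k w) C.flow (fun e => e.t) (fun e => e.y)
  have hout : ∑ f ∈ LE P, outf C (pat C.k w f) =
      (C.flow.map fun e => e.y * NN C.k w e.s).sum := by
    unfold outf NN
    exact sum_flow (LE P) (pat C.k w) C.flow (fun e => e.s) (fun e => e.y)
  have hle : (C.flow.map fun e => e.y * NN C.k w e.s).sum ≤
      (C.flow.map fun e => e.y * NN C.k w e.t).sum :=
    List.sum_le_sum fun e he => Nat.mul_le_mul_left _ (NN_le hw (hflow e he))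
  have hcoef : ∑ f ∈ LE P, coef C (pat C.k w f) =
      (C.lam.map fun p => p.2.2 * inv (w p.1) (w p.2.1)).sum := by
    have h1 : ∀ f ∈ LE P, coef C (pat C.k w f) =
        (C.lam.map fun p => if f (w p.2.1) < f (w p.1) then p.2.2 else 0).sum := by
      intro f _
      unfold coef
      congr 1
      apply List.map_congr_left
      intro p hp
      have h2 := hlam p hp
      rw [List.contains_iff_mem] at h2
      obtain ⟨a1, a2, _⟩ := hw.free _ h2
      simp only [pat_lt w f a2 a1]
    rw [sum_congr rfl h1, sum_lam]
    rfl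
  have hmain : 14 * Lam C * (LE P).card ≤
      39 * (C.lam.map fun p => p.2.2 * inv (w p.1) (w p.2.1)).sum := by
    rw [hin, hout, hcoef] at hsum
    have : (LE P).card * (14 * Lam C) = 14 * Lam C * (LE P).card := by ring
    omega
  by_contra hcon
  push Not at hcon
  have h3 : ∀ L : List (ℕ × ℕ × ℕ), (∀ p ∈ L, 39 * inv (w p.1) (w p.2.1) < 14 * (LE P).card) →
      39 * (L.map fun p => p.2.2 * inv (w p.1) (w p.2.1)).sum + (L.map fun p => p.2.2).sum ≤
        14 * (L.map fun p => p.2.2).sum * (LE P).card := by
    intro L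
    induction L with
    | nil => simp
    | cons a L ih =>
      intro hL
      have h4 := ih fun p hp => hL p (List.mem_cons_of_mem _ hp)
      have h5 := hL a List.mem_cons_self
      simp only [List.map_cons, List.sum_cons]
      have h6 : a.2.2 * (39 * inv (w a.1) (w a.2.1) + 1) ≤ a.2.2 * (14 * (LE P).card) :=
        Nat.mul_le_mul_left _ h5
      nlinarith
  have h7 := h3 C.lam hcon
  have h8 : (C.lam.map fun p => p.2.2).sum = Lam C := rfl
  rw [h8] at h7
  omega

lemma inv_half {x y : P} (h : Dom x y) (hne : x ≠ y) : 2 * inv x y ≤ (LE P).card := by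
  classical
  have h1 : inv x y ≤ inv y x := by
    unfold inv
    refine card_le_card_of_injOn (sw x y) ?_ (fun a _ b _ h => sw_inj _ _ h)
    intro f hf
    rw [mem_coe, mem_filter] at hf ⊢
    refine ⟨sw_mem_down h hf.1 hf.2, ?_⟩
    rw [sw_left, sw_right]
    exact hf.2
  have h2 : inv x y + inv y x = (LE P).card := by
    unfold inv
    rw [← card_union_of_disjoint]
    · congr 1
      ext f
      simp only [mem_union, mem_filter]
      constructor
      · rintro (h | h) <;> exact h.1
      · intro h
        rcases lt_trichotomy (f x) (f y) with h3 | h3 | h3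
        · exact Or.inr ⟨h, h3⟩
        · exact absurd (f.injective h3) hne
        · exact Or.inl ⟨h, h3⟩
    · rw [disjoint_left]
      intro f h3 h4
      rw [mem_filter] at h3 h4
      exact lt_asymm h3.2 h4.2
  omega

/-- A window with a valid certificate bounds the balance constant from below. -/
theorem balance_of_win {C : Cert} (hC : check C = true) {w : ℕ → P} (hw : IsWin C w) :
    14 / 39 ≤ balance P := by
  obtain ⟨p, hp, h1⟩ := sound hC hw
  have hlam : (p.1, p.2.1) ∈ C.free := by
    unfold check at hC
    simp only [Bool.and_eq_true, decide_eq_true_eq, List.all_eq_true] at hC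
    have := hC.2.1 p hp
    rwa [List.contains_iff_mem] at this
  obtain ⟨a1, a2, a3, hD⟩ := hw.free _ hlam
  have hne : w p.1 ≠ w p.2.1 := fun h => a3 (hw.inj _ a1 _ a2 h)
  have h2 := inv_half hD hne
  have hpos : (0 : ℝ) < (LE P).card := by exact_mod_cast LE_pos
  have e1 : prob P (w p.2.1) (w p.1) = (inv (w p.1) (w p.2.1) : ℝ) / (LE P).card := prob_eq_inv _ _
  have e2 := prob_add hne
  have h3 : (14 : ℝ) / 39 ≤ prob P (w p.2.1) (w p.1) := by
    rw [e1, div_le_div_iff₀ (by norm_num) hpos]
    have : ((14 * (LE P).card : ℕ) : ℝ) ≤ ((39 * inv (w p.1) (w p.2.1) : ℕ) : ℝ) := by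
      exact_mod_cast h1
    push_cast at this
    linarith
  have h4 : prob P (w p.2.1) (w p.1) ≤ 1 / 2 := by
    rw [e1, div_le_div_iff₀ hpos (by norm_num)]
    have : ((2 * inv (w p.1) (w p.2.1) : ℕ) : ℝ) ≤ (((LE P).card : ℕ) : ℝ) := by
      exact_mod_cast h2
    push_cast at this
    linarith
  refine le_trans (le_min (by linarith) h3) (le_balance (w p.1) (w p.2.1))

end Pool.Agent.Q109.SO
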