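import Pool.Agent.Q109.SO.Rep
import Pool.Agent.Q109.SO.Data

set_option autoImplicit false
set_option linter.unusedSectionVars false

/-!
The windows in a semiorder.
-/

namespace Pool.Agent.Q109.SO

open Finset Pool.Agent.H13R3.WB Pool.Agent.H931R3.Bal

variable {P : Type} [PartialOrder P] [Fintype P] {n : ℕ} {e : ℕ → P} {r l : ℕ → ℕ}

/-- A window given by a list of indices. -/
theorem of_list (R : Rep P n e r l) (C : Cert) (hs : Rep.okStatic C = true)
    (hC : check C = true) (L : List ℕ) (hL : L.length = C.k)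
    (h1 : ∀ x ∈ L, x < n) (h2 : L.Pairwise (· < ·))
    (h3 : ∀ p ∈ C.cmp, r (L.getD p.1 0) < L.getD p.2 0)
    (h4 : ∀ c ∈ C.comp, L.getD c.2.1 0 ≤ r (L.getD c.1 0) ∧
      ∀ z, ((r (L.getD c.1 0) < z ∧ z ≤ r (L.getD c.2.1 0)) ∨
        (z < l (L.getD c.2.1 0) ∧ l (L.getD c.1 0) ≤ z)) → ∃ t ∈ c.2.2, z = L.getD t 0) :
    14 / 39 ≤ balance P := by
  refine balance_of_win hC (R.mkWin C hs (fun i => L.getD i 0) ?_ ?_ h3 h4)
  · intro i hi
    have hi' : i < L.length := by omega
    show L.getD i 0 < n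
    rw [List.getD_eq_getElem _ _ hi']
    exact h1 _ (List.getElem_mem hi')
  · intro i hi j hj hij
    have hi' : i < L.length := by omega
    have hj' : j < L.length := by omega
    show L.getD i 0 < L.getD j 0
    rw [List.getD_eq_getElem _ _ hi', List.getD_eq_getElem _ _ hj']
    exact List.pairwise_iff_getElem.1 h2 i j hi' hj' hij

/-- Two adjacent elements that are separated by no element. -/
theorem win_tw (R : Rep P n e r l) (x : ℕ) (hx : x + 1 < n) (h0 : x < r x)
    (h1 : r (x + 1) = r x) (h2 : l (x + 1) = l x) : 14 / 39 ≤ balance P := by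
  refine of_list R ctw (by decide) ctw_ok [x, x + 1] rfl ?_ ?_ ?_ ?_
  · simp; repeat' (first | omega | refine ⟨?_, ?_⟩ | intro _)
  · simp
  · simp [ctw]
  · simp [ctw]; repeat' (first | omega | refine ⟨?_, ?_⟩ | intro _)

/-- The step from `x` to `x + 1` is a step of `l`. -/
theorem win_L (R : Rep P n e r l) (hirr : ∀ i, i + 1 < n → i < r i) (x : ℕ) (hx : x + 2 < n)
    (hl : l (x + 1) = l x + 1) (hr : r (x + 1) = r x) (h0 : r x + l x = 2 * x + 1)
    (hlo : 2 * x + 3 ≤ r (x + 2) + l (x + 2)) (hhi : r (x + 2) + l (x + 2) ≤ 2 * x + 4) :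
    14 / 39 ≤ balance P := by
  have a1 := R.l_le (show x < n by omega)
  have a2 := R.gal x (by omega) (x + 1) (by omega)
  have a3 := hirr x (by omega)
  have hi : l x < x := by omega
  set i := l x with hidef
  have b1 := R.gal i (by omega) x (by omega)
  have b2 := R.gal i (by omega) (x + 1) (by omega)
  have b3 := R.gal x (by omega) (x + 2) (by omega)
  have m1 := R.r_mono (show x + 1 ≤ x + 2 by omega) hx
  have m2 := R.l_mono (show x + 1 ≤ x + 2 by omega) hx
  have r2 := R.r_lt (x + 2) hx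
  have ri : r i = x := by omega
  have hR : r x = 2 * x + 1 - i := by omega
  have c1 := R.r_mono (show i + 1 ≤ x by omega) (by omega)
  have hcase : (r (x + 2) = r x + 1 ∧ l (x + 2) = i + 1) ∨ (r (x + 2) = r x + 2 ∧ l (x + 2) = i + 1) ∨
      (r (x + 2) = r x ∧ l (x + 2) = i + 2) ∨ (r (x + 2) = r x + 1 ∧ l (x + 2) = i + 2) ∨
      (r (x + 2) = r x ∧ l (x + 2) = i + 3) := by omega
  rcases hcase with ⟨d1, d2⟩ | ⟨d1, d2⟩ | ⟨d1, d2⟩ | ⟨d1, d2⟩ | ⟨d1, d2⟩
  · refine of_list R cL10 (by decide) cL10_ok [i, x, x + 1, x + 2, r x + 1] rfl ?_ ?_ ?_ ?_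
    · simp; repeat' (first | omega | refine ⟨?_, ?_⟩ | intro _)
    · simp; repeat' (first | omega | refine ⟨?_, ?_⟩ | intro _)
    · simp [cL10]; repeat' (first | omega | refine ⟨?_, ?_⟩ | intro _)
    · simp [cL10]; repeat' (first | omega | refine ⟨?_, ?_⟩ | intro _)
  · refine of_list R cL20 (by decide) cL20_ok [i, x, x + 1, x + 2, r x + 1, r x + 2] rfl ?_ ?_ ?_ ?_
    · simp; repeat' (first | omega | refine ⟨?_, ?_⟩ | intro _)
    · simp; repeat' (first | omega | refine ⟨?_, ?_⟩ | intro _)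
    · simp [cL20]; repeat' (first | omega | refine ⟨?_, ?_⟩ | intro _)
    · simp [cL20]; repeat' (first | omega | refine ⟨?_, ?_⟩ | intro _)
  · have f1 := R.gal (i + 1) (by omega) (x + 2) (by omega)
    have f2 := R.gal (i + 1) (by omega) (x + 1) (by omega)
    have f3 := R.gal (i + 1) (by omega) x (by omega)
    refine of_list R cL01 (by decide) cL01_ok [i, i + 1, x, x + 1, x + 2] rfl ?_ ?_ ?_ ?_
    · simp; repeat' (first | omega | refine ⟨?_, ?_⟩ | intro _)
    · simp; repeat' (first | omega | refine ⟨?_, ?_⟩ | intro _)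
    · simp [cL01]; repeat' (first | omega | refine ⟨?_, ?_⟩ | intro _)
    · simp [cL01]; repeat' (first | omega | refine ⟨?_, ?_⟩ | intro _)
  · have f1 := R.gal (i + 1) (by omega) (x + 2) (by omega)
    have f2 := R.gal (i + 1) (by omega) (x + 1) (by omega)
    have f3 := R.gal (i + 1) (by omega) x (by omega)
    refine of_list R cL11 (by decide) cL11_ok [i, i + 1, x, x + 1, x + 2, r x + 1] rfl ?_ ?_ ?_ ?_
    · simp; repeat' (first | omega | refine ⟨?_, ?_⟩ | intro _)
    · simp; repeat' (first | omega | refine ⟨?_, ?_⟩ | intro _)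
    · simp [cL11]; repeat' (first | omega | refine ⟨?_, ?_⟩ | intro _)
    · simp [cL11]; repeat' (first | omega | refine ⟨?_, ?_⟩ | intro _)
  · have f1 := R.gal (i + 1) (by omega) (x + 2) (by omega)
    have f2 := R.gal (i + 2) (by omega) (x + 2) (by omega)
    refine of_list R cL02 (by decide) cL02_ok [i, i + 1, i + 2, x, x + 1, x + 2] rfl ?_ ?_ ?_ ?_
    · simp; repeat' (first | omega | refine ⟨?_, ?_⟩ | intro _)
    · simp; repeat' (first | omega | refine ⟨?_, ?_⟩ | intro _)
    · simp [cL02]; repeat' (first | omega | refine ⟨?_, ?_⟩ | intro _)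
    · simp [cL02]; repeat' (first | omega | refine ⟨?_, ?_⟩ | intro _)

/-- The step from `x` to `x + 1` is a step of `r`. -/
theorem win_R (R : Rep P n e r l) (hirr : ∀ i, i + 1 < n → i < r i) (x : ℕ) (hx : x + 2 < n)
    (hl : l (x + 1) = l x) (hr : r (x + 1) = r x + 1) (h0 : r x + l x = 2 * x + 1)
    (hlo : ∀ y, x < y → y + 1 < n → r y + l y + 1 ≤ r (y + 1) + l (y + 1))
    (hhi : ∀ y, x < y → y < n → r y + l y ≤ 2 * y)
    (hE : ¬ (n = 3 ∧ r 0 = 1 ∧ r 1 = 2)) :
    14 / 39 ≤ balance P := by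
  have a1 := R.l_le (show x < n by omega)
  have a3 := hirr x (by omega)
  have e1 := hlo (x + 1) (by omega) (by omega)
  have e2 := hhi (x + 2) (by omega) (by omega)
  rw [show x + 1 + 1 = x + 2 from rfl] at e1
  have m1 := R.r_mono (show x + 1 ≤ x + 2 by omega) hx
  have m2 := R.l_mono (show x + 1 ≤ x + 2 by omega) hx
  have r1 := R.r_lt (x + 1) (by omega)
  have r2 := R.r_lt (x + 2) hx
  rcases Nat.lt_or_ge (l x + 1) x with hm3 | hm3
  · -- `m ≥ 3`
    refine of_list R cR3 (by decide) cR3_ok [x, x + 1, x + 2, x + 3, r x + 1] rfl ?_ ?_ ?_ ?_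
    · simp; repeat' (first | omega | refine ⟨?_, ?_⟩ | intro _)
    · simp; repeat' (first | omega | refine ⟨?_, ?_⟩ | intro _)
    · simp [cR3]
    · simp [cR3]; repeat' (first | omega | refine ⟨?_, ?_⟩ | intro _)
  rcases Nat.lt_or_ge (l x) x with hm2 | hm1
  · -- `m = 2`
    have hlx : l x = x - 1 := by omega
    have hrx : r x = x + 2 := by omega
    have b1 := R.gal x (by omega) (x + 2) (by omega)
    set j := l x with hj
    have hcase : (r (x + 2) = x + 4 ∧ l (x + 2) = j) ∨ (r (x + 2) = x + 5 ∧ l (x + 2) = j) ∨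
      (r (x + 2) = x + 3 ∧ l (x + 2) = j + 1) ∨ (r (x + 2) = x + 4 ∧ l (x + 2) = j + 1) := by omega
    rcases hcase with ⟨d1, d2⟩ | ⟨d1, d2⟩ | ⟨d1, d2⟩ | ⟨d1, d2⟩
    · refine of_list R cR10 (by decide) cR10_ok [x, x + 1, x + 2, x + 3, x + 4] rfl ?_ ?_ ?_ ?_
      · simp; repeat' (first | omega | refine ⟨?_, ?_⟩ | intro _)
      · simp
      · simp [cR10]; repeat' (first | omega | refine ⟨?_, ?_⟩ | intro _)
      · simp [cR10]; repeat' (first | omega | refine ⟨?_, ?_⟩ | intro _)
    · refine of_list R cR20 (by decide) cR20_ok [x, x + 1, x + 2, x + 3, x + 4, x + 5] rfl ?_ ?_ ?_ ?_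
      · simp; repeat' (first | omega | refine ⟨?_, ?_⟩ | intro _)
      · simp
      · simp [cR20]; repeat' (first | omega | refine ⟨?_, ?_⟩ | intro _)
      · simp [cR20]; repeat' (first | omega | refine ⟨?_, ?_⟩ | intro _)
    · have f1 := R.gal j (by omega) (x + 2) (by omega)
      refine of_list R cR01 (by decide) cR01_ok [j, x, x + 1, x + 2, x + 3] rfl ?_ ?_ ?_ ?_
      · simp; repeat' (first | omega | refine ⟨?_, ?_⟩ | intro _)
      · simp; repeat' (first | omega | refine ⟨?_, ?_⟩ | intro _)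
      · simp [cR01]; repeat' (first | omega | refine ⟨?_, ?_⟩ | intro _)
      · simp [cR01]; repeat' (first | omega | refine ⟨?_, ?_⟩ | intro _)
    · have f1 := R.gal j (by omega) (x + 2) (by omega)
      refine of_list R cR11 (by decide) cR11_ok [j, x, x + 1, x + 2, x + 3, x + 4] rfl ?_ ?_ ?_ ?_
      · simp; repeat' (first | omega | refine ⟨?_, ?_⟩ | intro _)
      · simp; repeat' (first | omega | refine ⟨?_, ?_⟩ | intro _)
      · simp [cR11]; repeat' (first | omega | refine ⟨?_, ?_⟩ | intro _)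
      · simp [cR11]; repeat' (first | omega | refine ⟨?_, ?_⟩ | intro _)
  · -- `m = 1`: a path
    have hlx : l x = x := by omega
    have hx0 : x = 0 := by
      by_contra hne
      have g1 := hirr (x - 1) (by omega)
      have g2 := R.gal (x - 1) (by omega) x (by omega)
      omega
    subst hx0
    have hr0 : r 0 = 1 := by omega
    have hr1 : r 1 = 2 := by simpa [hr0] using hr
    have hl1 : l 1 = 0 := by simpa [hlx] using hl
    simp only [Nat.zero_add] at e1 e2 m1 m2 r1 r2
    have g1 := R.gal 0 (by omega) 2 (by omega)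
    have g2 := R.gal 1 (by omega) 2 (by omega)
    have hl2 : l 2 = 1 := by omega
    have hr2 : r 2 = 3 := by
      have g3 := R.le_r 2 (by omega)
      rcases Nat.lt_or_ge 3 n with h | h
      · have := hirr 2 (by omega)
        omega
      · exact absurd ⟨by omega, hr0, hr1⟩ hE
    have g4 := R.gal 1 (by omega) 3 (by omega)
    have g5 := R.gal 2 (by omega) 3 (by omega)
    have hl3 : l 3 = 2 := by omega
    have g6 := hhi 3 (by omega) (by omega)
    have g7 := R.le_r 3 (by omega)
    have g8 := R.r_lt 3 (by omega)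
    have hcase : r 3 = 3 ∨ r 3 = 4 := by omega
    rcases hcase with h | h
    · refine of_list R cP4 (by decide) cP4_ok [0, 1, 2, 3] rfl ?_ ?_ ?_ ?_
      · simp; repeat' (first | omega | refine ⟨?_, ?_⟩ | intro _)
      · simp
      · simp [cP4]; repeat' (first | omega | refine ⟨?_, ?_⟩ | intro _)
      · simp [cP4]; repeat' (first | omega | refine ⟨?_, ?_⟩ | intro _)
    · refine of_list R cP5 (by decide) cP5_ok [0, 1, 2, 3, 4] rfl ?_ ?_ ?_ ?_
      · simp; repeat' (first | omega | refine ⟨?_, ?_⟩ | intro _)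
      · simp
      · simp [cP5]; repeat' (first | omega | refine ⟨?_, ?_⟩ | intro _)
      · simp [cP5]; repeat' (first | omega | refine ⟨?_, ?_⟩ | intro _)

/-- Irreducible semiorders. -/
theorem irreducible_case (R : Rep P n e r l) (hn : 2 ≤ n) (hirr : ∀ i, i + 1 < n → i < r i)
    (hE : ¬ (n = 3 ∧ r 0 = 1 ∧ r 1 = 2)) : 14 / 39 ≤ balance P := by
  classical
  by_cases htw : ∃ x, x + 1 < n ∧ r (x + 1) + l (x + 1) ≤ r x + l x
  · obtain ⟨x, hx, h⟩ := htw
    have m1 := R.r_mono (show x ≤ x + 1 by omega) hx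
    have m2 := R.l_mono (show x ≤ x + 1 by omega) hx
    exact win_tw R x hx (hirr x hx) (by omega) (by omega)
  · push Not at htw
    -- the last index with `2 x + 1 ≤ r x + l x`
    have hex : ∃ x, x < n ∧ 2 * x + 1 ≤ r x + l x ∧
        ∀ y, x < y → y < n → r y + l y ≤ 2 * y := by
      let p : ℕ → Prop := fun x => x < n ∧ 2 * x + 1 ≤ r x + l x
      have hp0 : p 0 := ⟨by omega, by have := hirr 0 (by omega); omega⟩
      refine ⟨Nat.findGreatest p n, (Nat.findGreatest_spec (P := p) (Nat.zero_le n) hp0).1,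
        (Nat.findGreatest_spec (P := p) (Nat.zero_le n) hp0).2, ?_⟩
      intro y hy1 hy2
      have := Nat.findGreatest_is_greatest (P := p) hy1 hy2.le
      simp only [p, not_and, not_le] at this
      have := this hy2
      omega
    obtain ⟨x, hx, h1, h2⟩ := hex
    have z1 := R.r_lt (n - 1) (by omega)
    have z2 := hirr (n - 2) (by omega)
    have z3 := R.gal (n - 2) (by omega) (n - 1) (by omega)
    have z4 := R.r_lt (n - 2) (by omega)
    have z5 : l (n - 1) ≤ n - 2 := by omega
    have hx1 : x ≠ n - 1 := by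
      rintro rfl
      omega
    have h3 := htw x (by omega)
    have h4 := h2 (x + 1) (by omega) (by omega)
    have hx2 : x + 1 ≠ n - 1 := by
      intro h
      rw [← h] at z1 z5
      omega
    have m1 := R.r_mono (show x ≤ x + 1 by omega) (show x + 1 < n by omega)
    have m2 := R.l_mono (show x ≤ x + 1 by omega) (show x + 1 < n by omega)
    have h5 := htw (x + 1) (by omega)
    have h6 := h2 (x + 2) (by omega) (by omega)
    rw [show x + 1 + 1 = x + 2 from rfl] at h5
    have hc : (l (x + 1) = l x + 1 ∧ r (x + 1) = r x) ∨ (l (x + 1) = l x ∧ r (x + 1) = r x + 1) := by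
      omega
    rcases hc with ⟨c1, c2⟩ | ⟨c1, c2⟩
    · exact win_L R hirr x (by omega) c1 c2 (by omega) (by omega) (by omega)
    · refine win_R R hirr x (by omega) c1 c2 (by omega) ?_ h2 hE
      intro y _ hy
      have := htw y hy
      omega

end Pool.Agent.Q109.SO
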